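import Mathlib

set_option autoImplicit false

namespace Pool.Agent.Lib.MP_32dfd1_ag.Cyc

/-- The group of even sign changes. -/
def SG (N : ℕ) : Subgroup (Fin N → ℤˣ) where
  carrier := {ε | ∏ i, ε i = 1}
  mul_mem' := by
    intro a b ha hb
    change ∏ i, (a i * b i) = 1
    rw [Finset.prod_mul_distrib, show ∏ i, a i = 1 from ha, show ∏ i, b i = 1 from hb, one_mul]
  one_mem' := by
    change ∏ i : Fin N, (1 : ℤˣ) = 1
    simp
  inv_mem' := by
    intro a ha
    change ∏ i, (a i)⁻¹ = 1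
    rw [Finset.prod_inv_distrib, show ∏ i, a i = 1 from ha, inv_one]

theorem mem_SG {N : ℕ} {ε : Fin N → ℤˣ} : ε ∈ SG N ↔ ∏ i, ε i = 1 := Iff.rfl

noncomputable instance (N : ℕ) : Fintype (SG N) := Fintype.ofFinite _

end Pool.Agent.Lib.MP_32dfd1_ag.Cyc
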