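import Mathlib

set_option autoImplicit false

/-!
# Abstract theories of Chow rings and cohomology, correspondences, abelian varieties
-/

namespace Pool.Agent.Lib.MP_32dfd1_ag.Cyc

open CategoryTheory MonoidalCategory CartesianMonoidalCategory MonObj

universe u v w

/-- Rings `R X` with inverse and direct images on a category `V` of smooth projective varieties:
the Chow rings `CH^*(X) ⊗ ℚ` or the cohomology rings `H^*(X, ℚ)`. -/
structure RingData (V : Type u) [Category.{v} V] where
  R : V → Type w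
  [ring : ∀ X, Ring (R X)]
  [alg : ∀ X, Algebra ℚ (R X)]
  /-- classes of degree `m` -/
  gr : (X : V) → ℤ → Submodule ℚ (R X)
  /-- inverse image -/
  pull : {X Y : V} → (X ⟶ Y) → R Y →ₐ[ℚ] R X
  /-- direct image -/
  push : {X Y : V} → (X ⟶ Y) → R X →ₗ[ℚ] R Y

attribute [instance] RingData.ring RingData.alg

namespace RingData

variable {V : Type u} [Category.{v} V]

/-- Functoriality and degrees of products and inverse images. -/
class Functorial (T : RingData.{u, v, w} V) : Prop where
  one_mem : ∀ X, (1 : T.R X) ∈ T.gr X 0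
  mul_mem : ∀ {X : V} {a b : ℤ} {x y : T.R X}, x ∈ T.gr X a → y ∈ T.gr X b →
    x * y ∈ T.gr X (a + b)
  pull_id : ∀ {X : V} (x : T.R X), T.pull (𝟙 X) x = x
  pull_comp : ∀ {X Y Z : V} (f : X ⟶ Y) (g : Y ⟶ Z) (x : T.R Z),
    T.pull (f ≫ g) x = T.pull f (T.pull g x)
  pull_mem : ∀ {X Y : V} (f : X ⟶ Y) {m : ℤ} {y : T.R Y}, y ∈ T.gr Y m → T.pull f y ∈ T.gr X m

/-- Functoriality of direct images. -/
class Direct (T : RingData.{u, v, w} V) : Prop where
  push_id : ∀ {X : V} (x : T.R X), T.push (𝟙 X) x = x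
  push_comp : ∀ {X Y Z : V} (f : X ⟶ Y) (g : Y ⟶ Z) (x : T.R X),
    T.push (f ≫ g) x = T.push g (T.push f x)
  /-- for isomorphisms the direct image is the inverse of the inverse image -/
  push_iso : ∀ {X Y : V} (f : X ≅ Y) (x : T.R X), T.push f.hom x = T.pull f.inv x

/-- Degrees of direct images; `e = 1` for Chow rings and `e = 2` for cohomology rings. -/
class Graded (T : RingData.{u, v, w} V) (dim : V → ℤ) (e : ℤ) : Prop where
  push_mem : ∀ {X Y : V} (f : X ⟶ Y) {m : ℤ} {x : T.R X}, x ∈ T.gr X m →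
    T.push f x ∈ T.gr Y (m + e * (dim Y - dim X))

variable [CartesianMonoidalCategory V]

/-- Projection formula and base change. -/
class Formulas (T : RingData.{u, v, w} V) : Prop where
  proj_left : ∀ {X Y : V} (f : X ⟶ Y) (x : T.R X) (y : T.R Y),
    T.push f (T.pull f y * x) = y * T.push f x
  proj_right : ∀ {X Y : V} (f : X ⟶ Y) (x : T.R X) (y : T.R Y),
    T.push f (x * T.pull f y) = T.push f x * y
  /-- base change along the projection `Y × Z ⟶ Y` -/
  base_change : ∀ {X Y : V} (f : X ⟶ Y) (Z : V) (x : T.R X),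
    T.pull (fst Y Z) (T.push f x) = T.push (f ▷ Z) (T.pull (fst X Z) x)

variable (T : RingData.{u, v, w} V)

/-- The action `c_* x = q_*(p^* x · c)` of a correspondence `c` from `X` to `Y`, that is, of a
class on `X × Y` with projections `p`, `q`. -/
def act {X Y : V} (c : T.R (X ⊗ Y)) (x : T.R X) : T.R Y :=
  T.push (snd X Y) (T.pull (fst X Y) x * c)

/-- The composition of the correspondences `c` from `X` to `Y` and `d` from `Y` to `Z`. -/
def comp {X Y Z : V} (c : T.R (X ⊗ Y)) (d : T.R (Y ⊗ Z)) : T.R (X ⊗ Z) :=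
  T.push (fst X Y ▷ Z) (T.pull (fst (X ⊗ Y) Z) c * T.pull (snd X Y ▷ Z) d)

/-- The class of the diagonal of `X`. -/
def diag (X : V) : T.R (X ⊗ X) := T.push (lift (𝟙 X) (𝟙 X)) 1

/-- inverse image -/
def pull' {X Y : V} (f : X ⟶ Y) (y : T.R Y) : T.R X := T.pull f y

/-- direct image -/
def push' {X Y : V} (f : X ⟶ Y) (x : T.R X) : T.R Y := T.push f x

end RingData

/-- Chow rings, cohomology rings and the cycle class map on smooth projective varieties. -/
structure CycleData (V : Type u) [Category.{v} V] where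
  /-- dimension -/
  dim : V → ℤ
  /-- Chow rings with rational coefficients -/
  CH : RingData.{u, v, w} V
  /-- cohomology rings with rational coefficients -/
  H : RingData.{u, v, w} V
  /-- cycle class map -/
  cl : (X : V) → CH.R X →ₐ[ℚ] H.R X

namespace CycleData

variable {V : Type u} [Category.{v} V] (T : CycleData.{u, v, w} V)

/-- `z` is a homologically trivial cycle class of codimension `m` on `X`. -/
def HomTrivial (X : V) (m : ℤ) (z : T.CH.R X) : Prop :=
  z ∈ T.CH.gr X m ∧ T.cl X z = 0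

/-- The cycle class map is compatible with degrees, inverse and direct images. -/
class ClassMap : Prop where
  cl_mem : ∀ (X : V) (m : ℤ), ∀ z ∈ T.CH.gr X m, T.cl X z ∈ T.H.gr X (2 * m)
  cl_pull : ∀ {X Y : V} (f : X ⟶ Y) (z : T.CH.R Y), T.cl X (T.CH.pull f z) = T.H.pull f (T.cl Y z)
  cl_push : ∀ {X Y : V} (f : X ⟶ Y) (z : T.CH.R X), T.cl Y (T.CH.push f z) = T.H.push f (T.cl X z)

/-- Vanishing outside the possible degrees. -/
class Bounds : Prop where
  /-- there are no cycles of codimension larger than the dimension -/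
  CH_bot : ∀ (X : V) (m : ℤ), T.dim X < m → T.CH.gr X m = ⊥
  /-- cycles of codimension zero are determined by their classes -/
  CH_zero : ∀ (X : V) (m : ℤ) (z : T.CH.R X), m ≤ 0 → T.HomTrivial X m z → z = 0
  H_bot : ∀ (X : V) (j : ℤ), j < 0 ∨ 2 * T.dim X < j → T.H.gr X j = ⊥
  H_top : ∀ X : V, ⨆ j, T.H.gr X j = ⊤
  /-- Poincare duality, only for the vanishing of cohomology groups -/
  duality : ∀ (X : V) (j : ℤ), T.H.gr X j = ⊥ → T.H.gr X (2 * T.dim X - j) = ⊥

variable [CartesianMonoidalCategory V]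

/-- Cohomology and dimension of products. -/
class Products : Prop where
  dim_tensor : ∀ X Y : V, T.dim (X ⊗ Y) = T.dim X + T.dim Y
  dim_unit : T.dim (𝟙_ V) = 0
  /-- Kunneth formula -/
  kunneth : ∀ (X Y : V) (j : ℤ), T.H.gr (X ⊗ Y) j ≤ Submodule.span ℚ {z | ∃ (a b : ℤ)
    (x : T.H.R X) (y : T.H.R Y), a + b = j ∧ x ∈ T.H.gr X a ∧ y ∈ T.H.gr Y b ∧
      z = T.H.pull (fst X Y) x * T.H.pull (snd X Y) y}
  /-- Kunneth formula and Poincare duality: a class on `X × Y` is zero if it acts as zero on
  the cohomology of `X` -/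
  faithful : ∀ (X Y : V) (c : T.H.R (X ⊗ Y)), (∀ x, T.H.act c x = 0) → c = 0

/-- Textbook properties of the Chow rings with rational coefficients and of the cohomology of
smooth projective varieties. -/
class Textbook : Prop where
  [CH_funct : T.CH.Functorial]
  [CH_direct : T.CH.Direct]
  [CH_graded : T.CH.Graded T.dim 1]
  [CH_formulas : T.CH.Formulas]
  [H_funct : T.H.Functorial]
  [H_direct : T.H.Direct]
  [H_graded : T.H.Graded T.dim 2]
  [H_formulas : T.H.Formulas]
  [class_map : T.ClassMap]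
  [bounds : T.Bounds]
  [products : T.Products]

attribute [instance] Textbook.CH_funct Textbook.CH_direct Textbook.CH_graded Textbook.CH_formulas
  Textbook.H_funct Textbook.H_direct Textbook.H_graded Textbook.H_formulas Textbook.class_map
  Textbook.bounds Textbook.products

end CycleData

variable {V : Type u} [Category.{v} V] [CartesianMonoidalCategory V] [BraidedCategory V]

/-- An abelian variety `A` of dimension `g`: a commutative group object of `V` on which
multiplication by `n`, that is `(𝟙 A) ^ n`, acts on `H^j(A)` as `n ^ j` and has degree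
`n ^ (2 g)`. -/
structure AbVar (T : CycleData.{u, v, w} V) where
  A : V
  [grp : GrpObj A]
  [comm : IsCommMonObj A]
  g : ℕ
  dim_eq : T.dim A = g
  coh : ∀ (n : ℤ) (j : ℕ) (x : T.H.R A), x ∈ T.H.gr A j →
    T.H.pull ((𝟙 A : A ⟶ A) ^ n) x = ((n : ℚ) ^ j) • x
  degree : ∀ n : ℤ, n ≠ 0 →
    T.CH.push ((𝟙 A : A ⟶ A) ^ n) (1 : T.CH.R A) = ((n : ℚ) ^ (2 * g)) • (1 : T.CH.R A)

attribute [instance] AbVar.grp AbVar.comm

namespace CycleData

/-- `X` is of abelian type: the diagonal of `X` is a sum of compositions `b i ∘ a i`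
of correspondences `a i` from `X` to an abelian variety `A i`, of degree `n i`, and `b i`
from `A i` to `X`, of degree `- n i`. In other words the Chow motive of `X` is a direct summand
of a sum of Tate twists of motives of abelian varieties. -/
def AbelianType (T : CycleData.{u, v, w} V) (X : V) : Prop :=
  ∃ (I : Type) (_ : Fintype I) (A : I → AbVar T) (n : I → ℤ)
    (a : ∀ i, T.CH.R (X ⊗ (A i).A)) (b : ∀ i, T.CH.R ((A i).A ⊗ X)),
    (∀ i, a i ∈ T.CH.gr (X ⊗ (A i).A) (T.dim X + n i)) ∧
    (∀ i, b i ∈ T.CH.gr ((A i).A ⊗ X) ((A i).g - n i)) ∧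
    ∑ i, T.CH.comp (a i) (b i) = T.CH.diag X

/-- An etale Galois cover `q : W ⟶ Y` with group `G` acting by `b`, and an equivariant morphism
`p : W ⟶ X` with a section `s` (which need not be equivariant). -/
structure GaloisCover (T : CycleData.{u, v, w} V) (X : V) (G : Type) [Group G] [Fintype G]
    (a : G → (X ⟶ X)) where
  W : V
  Y : V
  b : G → (W ⟶ W)
  q : W ⟶ Y
  p : W ⟶ X
  s : X ⟶ W
  b_one : b 1 = 𝟙 W
  b_mul : ∀ g h, b (g * h) = b h ≫ b g
  equivariant : ∀ g, b g ≫ p = p ≫ a g
  section_id : s ≫ p = 𝟙 X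
  dim_eq : T.dim Y = T.dim W
  dim_le : T.dim X ≤ T.dim W
  pull_push : ∀ z, T.CH.pull q (T.CH.push q z) = ∑ g, T.CH.pull (b g) z

/-- The construction of Godeaux and Serre.  A finite group `G` of exponent two acts on a
variety `X` of abelian type; let `B` be an intersection of `c` diagonal quadrics in
`P^(2c-1)`, `c` large, with a free action of `G` by sign changes of the coordinates, `W = X × B`,
`Y = W / G`, `q : W ⟶ Y` the etale Galois cover, `p : W ⟶ X` the projection, `s : X ⟶ W`
given by a point of `B`.  Then `Y` is of abelian type, and `H^j(Y)` is the sum of the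
`G`-invariants in `H^(j - 2i)(X)`, `i ≥ 0`; only the vanishing of `H^j(Y)` when all these
vanish is recorded here. -/
def GodeauxSerre (T : CycleData.{u, v, w} V) : Prop :=
  ∀ (X : V) (G : Type) [Group G] [Fintype G] (a : G → (X ⟶ X)), T.AbelianType X →
    (∀ g : G, g * g = 1) → a 1 = 𝟙 X → (∀ g h, a (g * h) = a h ≫ a g) → ∀ j : ℤ,
    (∀ i : ℕ, ∀ x ∈ T.H.gr X (j - 2 * i), (∀ g, T.H.pull (a g) x = x) → x = 0) →
    ∃ C : T.GaloisCover X G a, T.H.gr C.Y j = ⊥ ∧ T.AbelianType C.Y

/-- Question Q1 for varieties of abelian type: if `H^(2m-1)(X, ℚ) = 0` then every homologically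
trivial cycle class of codimension `m` on `X` is zero in `CH^m(X) ⊗ ℚ`. -/
def Q1 (T : CycleData.{u, v, w} V) : Prop :=
  ∀ X : V, T.AbelianType X → ∀ m : ℤ, 1 ≤ m → T.H.gr X (2 * m - 1) = ⊥ →
    ∀ z, T.HomTrivial X m z → z = 0

/-- For every abelian variety `A` and all integers `m ≥ 1` and `n`, `[n]^*` is multiplication by
`n ^ (2m - 1)` on homologically trivial cycle classes of codimension `m` on `A`. -/
def PureWeight (T : CycleData.{u, v, w} V) : Prop :=
  ∀ (A : AbVar T) (m : ℤ), 1 ≤ m → ∀ z, T.HomTrivial A.A m z → ∀ n : ℤ,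
    T.CH.pull' ((𝟙 A.A : A.A ⟶ A.A) ^ n) z = ((n : ℚ) ^ (2 * m - 1).toNat) • z

/-- The Bloch-Beilinson filtration on cycles on varieties of abelian type has only one step: a
correspondence `c` from `X` to `Y` which acts as zero on `H^(2m-1)(X)` acts as zero on the
homologically trivial cycle classes of codimension `m` on `X`. -/
def OneStep (T : CycleData.{u, v, w} V) : Prop :=
  ∀ X Y : V, T.AbelianType X → T.AbelianType Y → ∀ (m r : ℤ) (c : T.CH.R (X ⊗ Y)), 1 ≤ m →
    c ∈ T.CH.gr (X ⊗ Y) (T.dim X + r) →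
    (∀ x ∈ T.H.gr X (2 * m - 1), T.H.act (T.cl _ c) x = 0) →
    ∀ z, T.HomTrivial X m z → T.CH.act c z = 0

/-- The Albanese kernel of every abelian variety `A` is torsion: a homologically trivial
zero-cycle `z` on `A × A` satisfies `μ_* z = p_* z + q_* z`, with the addition `μ` and the
projections `p`, `q` of `A × A`. -/
def AlbaneseTrivial (T : CycleData.{u, v, w} V) : Prop :=
  ∀ (A : AbVar T) (z : T.CH.R (A.A ⊗ A.A)), T.HomTrivial (A.A ⊗ A.A) (2 * A.g) z →
    T.CH.push' μ z = T.CH.push' (fst A.A A.A) z + T.CH.push' (snd A.A A.A) z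

/-- Products of homologically trivial cycles on varieties of abelian type are zero. -/
def ProductsVanish (T : CycleData.{u, v, w} V) : Prop :=
  ∀ X : V, T.AbelianType X → ∀ (a b : ℤ) (z z' : T.CH.R X), T.HomTrivial X a z →
    T.HomTrivial X b z' → z * z' = 0

end CycleData

end Pool.Agent.Lib.MP_32dfd1_ag.Cyc
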