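import Mathlib
import Pool.Agent.Lib.MP_32dfd1_ag.Cyc.Theory

set_option autoImplicit false
set_option linter.unusedSectionVars false

/-!
# Names for the laws
-/

namespace Pool.Agent.Lib.MP_32dfd1_ag.Cyc

open CategoryTheory MonoidalCategory CartesianMonoidalCategory

universe u v w

namespace RingData

section

variable {V : Type u} [Category.{v} V] (T : RingData.{u, v, w} V) [T.Functorial]

theorem one_mem (X : V) : (1 : T.R X) ∈ T.gr X 0 := Functorial.one_mem X

theorem mul_mem {X : V} {a b : ℤ} {x y : T.R X} (hx : x ∈ T.gr X a) (hy : y ∈ T.gr X b) :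
    x * y ∈ T.gr X (a + b) := Functorial.mul_mem hx hy

theorem pull_id {X : V} (x : T.R X) : T.pull (𝟙 X) x = x := Functorial.pull_id x

theorem pull_comp {X Y Z : V} (f : X ⟶ Y) (g : Y ⟶ Z) (x : T.R Z) :
    T.pull (f ≫ g) x = T.pull f (T.pull g x) := Functorial.pull_comp f g x

theorem pull_mem {X Y : V} (f : X ⟶ Y) {m : ℤ} {y : T.R Y} (h : y ∈ T.gr Y m) :
    T.pull f y ∈ T.gr X m := Functorial.pull_mem f h

variable [T.Direct]

theorem push_id {X : V} (x : T.R X) : T.push (𝟙 X) x = x := Direct.push_id x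

theorem push_comp {X Y Z : V} (f : X ⟶ Y) (g : Y ⟶ Z) (x : T.R X) :
    T.push (f ≫ g) x = T.push g (T.push f x) := Direct.push_comp f g x

theorem push_iso {X Y : V} (f : X ≅ Y) (x : T.R X) : T.push f.hom x = T.pull f.inv x :=
  Direct.push_iso f x

end

section

variable {V : Type u} [Category.{v} V] [CartesianMonoidalCategory V] (T : RingData.{u, v, w} V)
  [T.Formulas]

theorem proj_left {X Y : V} (f : X ⟶ Y) (x : T.R X) (y : T.R Y) :
    T.push f (T.pull f y * x) = y * T.push f x := Formulas.proj_left f x y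

theorem proj_right {X Y : V} (f : X ⟶ Y) (x : T.R X) (y : T.R Y) :
    T.push f (x * T.pull f y) = T.push f x * y := Formulas.proj_right f x y

theorem base_change {X Y : V} (f : X ⟶ Y) (Z : V) (x : T.R X) :
    T.pull (fst Y Z) (T.push f x) = T.push (f ▷ Z) (T.pull (fst X Z) x) :=
  Formulas.base_change f Z x

end

end RingData

namespace CycleData

variable {V : Type u} [Category.{v} V] [CartesianMonoidalCategory V]
  (T : CycleData.{u, v, w} V) [T.Textbook]

theorem CH_push_mem {X Y : V} (f : X ⟶ Y) {m : ℤ} {x : T.CH.R X} (h : x ∈ T.CH.gr X m) :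
    T.CH.push f x ∈ T.CH.gr Y (m + 1 * (T.dim Y - T.dim X)) := RingData.Graded.push_mem f h

theorem H_push_mem {X Y : V} (f : X ⟶ Y) {m : ℤ} {x : T.H.R X} (h : x ∈ T.H.gr X m) :
    T.H.push f x ∈ T.H.gr Y (m + 2 * (T.dim Y - T.dim X)) := RingData.Graded.push_mem f h

theorem cl_mem (X : V) (m : ℤ) (z : T.CH.R X) (h : z ∈ T.CH.gr X m) :
    T.cl X z ∈ T.H.gr X (2 * m) := ClassMap.cl_mem X m z h

theorem cl_pull {X Y : V} (f : X ⟶ Y) (z : T.CH.R Y) :
    T.cl X (T.CH.pull f z) = T.H.pull f (T.cl Y z) := ClassMap.cl_pull f z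

theorem cl_push {X Y : V} (f : X ⟶ Y) (z : T.CH.R X) :
    T.cl Y (T.CH.push f z) = T.H.push f (T.cl X z) := ClassMap.cl_push f z

theorem CH_bot (X : V) (m : ℤ) (h : T.dim X < m) : T.CH.gr X m = ⊥ := Bounds.CH_bot X m h

theorem CH_zero (X : V) (m : ℤ) (z : T.CH.R X) (hm : m ≤ 0) (h : T.HomTrivial X m z) : z = 0 :=
  Bounds.CH_zero X m z hm h

theorem H_bot (X : V) (j : ℤ) (h : j < 0 ∨ 2 * T.dim X < j) : T.H.gr X j = ⊥ := Bounds.H_bot X j h

theorem H_top (X : V) : ⨆ j, T.H.gr X j = ⊤ := Bounds.H_top X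

theorem duality (X : V) (j : ℤ) (h : T.H.gr X j = ⊥) : T.H.gr X (2 * T.dim X - j) = ⊥ :=
  Bounds.duality X j h

theorem dim_tensor (X Y : V) : T.dim (X ⊗ Y) = T.dim X + T.dim Y := Products.dim_tensor X Y

theorem dim_unit : T.dim (𝟙_ V) = 0 := Products.dim_unit

theorem kunneth (X Y : V) (j : ℤ) : T.H.gr (X ⊗ Y) j ≤ Submodule.span ℚ {z | ∃ (a b : ℤ)
    (x : T.H.R X) (y : T.H.R Y), a + b = j ∧ x ∈ T.H.gr X a ∧ y ∈ T.H.gr Y b ∧
      z = T.H.pull (fst X Y) x * T.H.pull (snd X Y) y} := Products.kunneth X Y j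

theorem faithful (X Y : V) (c : T.H.R (X ⊗ Y)) (h : ∀ x, T.H.act c x = 0) : c = 0 :=
  Products.faithful X Y c h

end CycleData

end Pool.Agent.Lib.MP_32dfd1_ag.Cyc
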