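import Mathlib
import Pool.Agent.Lib.MP_32dfd1_ag.Cyc.Laws

set_option autoImplicit false
set_option linter.unusedSectionVars false

/-!
# Formal properties of correspondences
-/

namespace Pool.Agent.Lib.MP_32dfd1_ag.Cyc

open CategoryTheory MonoidalCategory CartesianMonoidalCategory

universe u v w

namespace RingData

variable {V : Type u} [Category.{v} V] [CartesianMonoidalCategory V]
  (T : RingData.{u, v, w} V)

theorem act_add {X Y : V} (c : T.R (X ⊗ Y)) (x y : T.R X) :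
    T.act c (x + y) = T.act c x + T.act c y := by
  simp [act, add_mul]

theorem act_smul {X Y : V} (c : T.R (X ⊗ Y)) (q : ℚ) (x : T.R X) :
    T.act c (q • x) = q • T.act c x := by
  simp [act]

theorem act_zero {X Y : V} (c : T.R (X ⊗ Y)) : T.act c (0 : T.R X) = 0 := by
  simp [act]

theorem zero_act {X Y : V} (x : T.R X) : T.act (0 : T.R (X ⊗ Y)) x = 0 := by
  simp [act]

theorem sum_act {X Y : V} {I : Type*} (s : Finset I) (c : I → T.R (X ⊗ Y)) (x : T.R X) :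
    T.act (∑ i ∈ s, c i) x = ∑ i ∈ s, T.act (c i) x := by
  simp [act, Finset.mul_sum]

theorem smul_act {X Y : V} (q : ℚ) (c : T.R (X ⊗ Y)) (x : T.R X) :
    T.act (q • c) x = q • T.act c x := by
  simp [act]

theorem act_sum {X Y : V} {I : Type*} (s : Finset I) (c : T.R (X ⊗ Y)) (x : I → T.R X) :
    T.act c (∑ i ∈ s, x i) = ∑ i ∈ s, T.act c (x i) := by
  simp [act, Finset.sum_mul]

theorem act_neg {X Y : V} (c : T.R (X ⊗ Y)) (x : T.R X) :
    T.act c (-x) = - T.act c x := by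
  simp [act]

variable [T.Functorial] [T.Direct] [T.Formulas]

/-- the action of a composition -/
theorem act_comp {X Y Z : V} (c : T.R (X ⊗ Y)) (d : T.R (Y ⊗ Z)) (x : T.R X) :
    T.act (T.comp c d) x = T.act d (T.act c x) := by
  unfold act comp
  rw [← T.proj_left, ← T.push_comp, ← T.pull_comp, whiskerRight_snd, whiskerRight_fst,
    T.base_change, ← T.proj_right, ← T.push_comp, whiskerRight_snd,
    map_mul (T.pull (fst (X ⊗ Y) Z)), ← T.pull_comp, mul_assoc]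

/-- the diagonal acts as the identity -/
theorem act_diag {X : V} (x : T.R X) : T.act (T.diag X) x = x := by
  unfold act diag
  rw [← T.proj_left, ← T.pull_comp, ← T.push_comp, lift_fst, lift_snd, T.pull_id, T.push_id,
    mul_one]

/-- the transposed graph of a morphism -/
def gt {X Y : V} (f : X ⟶ Y) : T.R (Y ⊗ X) := T.push (lift f (𝟙 X)) 1

theorem act_gt {X Y : V} (f : X ⟶ Y) (y : T.R Y) : T.act (T.gt f) y = T.pull f y := by
  unfold act gt
  rw [← T.proj_left, ← T.pull_comp, ← T.push_comp, lift_fst, lift_snd, T.push_id, mul_one]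

theorem push_one_whisker {X Y : V} (f : X ⟶ Y) (Z : V) :
    T.push (f ▷ Z) 1 = T.pull (fst Y Z) (T.push f 1) := by
  rw [T.base_change, map_one (T.pull (fst X Z))]

theorem comp_diag {X Y : V} (c : T.R (X ⊗ Y)) : T.comp (T.diag X) c = c := by
  unfold comp diag
  rw [T.base_change, map_one, ← T.proj_right, one_mul, ← T.pull_comp, ← T.push_comp,
    ← comp_whiskerRight, ← comp_whiskerRight, lift_fst, lift_snd, id_whiskerRight,
    T.pull_id, T.push_id]

end RingData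

namespace CycleData

variable {V : Type u} [Category.{v} V] [CartesianMonoidalCategory V]
  (T : CycleData.{u, v, w} V) [T.Textbook]

theorem gr_congr {X : V} {a b : ℤ} {z : T.CH.R X} (h : z ∈ T.CH.gr X a) (e : a = b) :
    z ∈ T.CH.gr X b := e ▸ h

theorem grH_congr {X : V} {a b : ℤ} {z : T.H.R X} (h : z ∈ T.H.gr X a) (e : a = b) :
    z ∈ T.H.gr X b := e ▸ h

theorem cl_act {X Y : V} (c : T.CH.R (X ⊗ Y)) (z : T.CH.R X) :
    T.cl Y (T.CH.act c z) = T.H.act (T.cl _ c) (T.cl X z) := by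
  unfold RingData.act
  rw [T.cl_push, map_mul, T.cl_pull]

theorem cl_comp {X Y Z : V} (c : T.CH.R (X ⊗ Y)) (d : T.CH.R (Y ⊗ Z)) :
    T.cl _ (T.CH.comp c d) = T.H.comp (T.cl _ c) (T.cl _ d) := by
  unfold RingData.comp
  rw [T.cl_push, map_mul, T.cl_pull, T.cl_pull]

theorem cl_diag (X : V) : T.cl _ (T.CH.diag X) = T.H.diag X := by
  unfold RingData.diag
  rw [T.cl_push, map_one]

theorem cl_gt {X Y : V} (f : X ⟶ Y) : T.cl _ (T.CH.gt f) = T.H.gt f := by
  unfold RingData.gt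
  rw [T.cl_push, map_one]

theorem act_mem {X Y : V} {c : T.CH.R (X ⊗ Y)} {z : T.CH.R X} {k m : ℤ}
    (hc : c ∈ T.CH.gr (X ⊗ Y) k) (hz : z ∈ T.CH.gr X m) :
    T.CH.act c z ∈ T.CH.gr Y (m + k - T.dim X) := by
  refine T.gr_congr (T.CH_push_mem (snd X Y) (T.CH.mul_mem (T.CH.pull_mem (fst X Y) hz) hc)) ?_
  rw [T.dim_tensor]
  ring

theorem actH_mem {X Y : V} {c : T.H.R (X ⊗ Y)} {x : T.H.R X} {k m : ℤ}
    (hc : c ∈ T.H.gr (X ⊗ Y) k) (hx : x ∈ T.H.gr X m) :
    T.H.act c x ∈ T.H.gr Y (m + k - 2 * T.dim X) := by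
  refine T.grH_congr (T.H_push_mem (snd X Y) (T.H.mul_mem (T.H.pull_mem (fst X Y) hx) hc)) ?_
  rw [T.dim_tensor]
  ring

theorem comp_mem {X Y Z : V} {c : T.CH.R (X ⊗ Y)} {d : T.CH.R (Y ⊗ Z)} {k l : ℤ}
    (hc : c ∈ T.CH.gr (X ⊗ Y) k) (hd : d ∈ T.CH.gr (Y ⊗ Z) l) :
    T.CH.comp c d ∈ T.CH.gr (X ⊗ Z) (k + l - T.dim Y) := by
  refine T.gr_congr (T.CH_push_mem _ (T.CH.mul_mem (T.CH.pull_mem _ hc) (T.CH.pull_mem _ hd))) ?_
  rw [T.dim_tensor, T.dim_tensor, T.dim_tensor]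
  ring

theorem diag_mem (X : V) : T.CH.diag X ∈ T.CH.gr (X ⊗ X) (T.dim X) := by
  refine T.gr_congr (T.CH_push_mem _ (T.CH.one_mem X)) ?_
  rw [T.dim_tensor]
  ring

theorem gt_mem {X Y : V} (f : X ⟶ Y) : T.CH.gt f ∈ T.CH.gr (Y ⊗ X) (T.dim Y) := by
  refine T.gr_congr (T.CH_push_mem _ (T.CH.one_mem X)) ?_
  rw [T.dim_tensor]
  ring

theorem homTrivial_act {X Y : V} {c : T.CH.R (X ⊗ Y)} {z : T.CH.R X} {k m : ℤ}
    (hc : c ∈ T.CH.gr (X ⊗ Y) k) (hz : T.HomTrivial X m z) :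
    T.HomTrivial Y (m + k - T.dim X) (T.CH.act c z) := by
  refine ⟨T.act_mem hc hz.1, ?_⟩
  rw [T.cl_act, hz.2, RingData.act_zero]

theorem homTrivial_pull {X Y : V} (f : X ⟶ Y) {z : T.CH.R Y} {m : ℤ} (hz : T.HomTrivial Y m z) :
    T.HomTrivial X m (T.CH.pull f z) := by
  refine ⟨T.CH.pull_mem f hz.1, ?_⟩
  rw [T.cl_pull, hz.2, map_zero]

theorem homTrivial_push {X Y : V} (f : X ⟶ Y) {z : T.CH.R X} {m : ℤ} (hz : T.HomTrivial X m z) :
    T.HomTrivial Y (m + T.dim Y - T.dim X) (T.CH.push f z) := by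
  refine ⟨T.gr_congr (T.CH_push_mem f hz.1) (by ring), ?_⟩
  rw [T.cl_push, hz.2, map_zero]

theorem homTrivial_congr {X : V} {a b : ℤ} {z : T.CH.R X} (h : T.HomTrivial X a z) (e : a = b) :
    T.HomTrivial X b z := e ▸ h

theorem homTrivial_eq_zero {X : V} {m : ℤ} {z : T.CH.R X} (hm : m ≤ 0)
    (h : T.HomTrivial X m z) : z = 0 := T.CH_zero X m z hm h

theorem homTrivial_eq_zero' {X : V} {m : ℤ} {z : T.CH.R X} (hm : T.dim X < m)
    (h : T.HomTrivial X m z) : z = 0 := by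
  have := h.1
  rwa [T.CH_bot X m hm, Submodule.mem_bot] at this

end CycleData

end Pool.Agent.Lib.MP_32dfd1_ag.Cyc
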