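import Mathlib
import Pool.Agent.Lib.MP_32dfd1_ag.Cyc.Corr

set_option autoImplicit false
set_option linter.unusedSectionVars false

/-!
# Products and powers of abelian varieties
-/

namespace Pool.Agent.Lib.MP_32dfd1_ag.Cyc

open CategoryTheory MonoidalCategory CartesianMonoidalCategory MonObj

universe u v w

variable {V : Type u} [Category.{v} V] [CartesianMonoidalCategory V] [BraidedCategory V]
  {T : CycleData.{u, v, w} V} [T.Textbook]

theorem id_tensor_zpow (A B : V) [GrpObj A] [GrpObj B] (n : ℤ) :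
    ((𝟙 (A ⊗ B) : A ⊗ B ⟶ A ⊗ B) ^ n) = ((𝟙 A : A ⟶ A) ^ n) ⊗ₘ ((𝟙 B : B ⟶ B) ^ n) := by
  ext
  · rw [GrpObj.zpow_comp, Category.id_comp, tensorHom_fst, GrpObj.comp_zpow, Category.comp_id]
  · rw [GrpObj.zpow_comp, Category.id_comp, tensorHom_snd, GrpObj.comp_zpow, Category.comp_id]

set_option linter.unusedSectionVars false in
theorem push_iso_one (R : RingData.{u, v, w} V) [R.Functorial] [R.Direct] [R.Formulas] {X Y : V} (f : X ≅ Y) :
    R.push f.hom 1 = 1 := by
  rw [R.push_iso, map_one (R.pull f.inv)]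

theorem push_whiskerLeft_one (R : RingData.{u, v, w} V) [R.Functorial] [R.Direct] [R.Formulas] {X Y : V} (f : X ⟶ Y) (Z : V)
    (q : ℚ) (h : R.push f 1 = q • 1) : R.push (Z ◁ f) 1 = q • 1 := by
  have h1 : Z ◁ f = (β_ Z X).hom ≫ f ▷ Z ≫ (β_ Y Z).hom := by simp
  rw [h1, R.push_comp, R.push_comp, push_iso_one, R.push_one_whisker, h, map_smul,
    map_one (R.pull (fst Y Z)), map_smul, push_iso_one]

namespace AbVar

theorem coh_int (A : AbVar T) (n : ℤ) {j : ℤ} (hj : 0 ≤ j) {x : T.H.R A.A}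
    (hx : x ∈ T.H.gr A.A j) :
    T.H.pull ((𝟙 A.A : A.A ⟶ A.A) ^ n) x = ((n : ℚ) ^ j.toNat) • x := by
  refine A.coh n j.toNat x (T.grH_congr hx ?_)
  omega

/-- the product of two abelian varieties -/
def prod (A B : AbVar T) : AbVar T where
  A := A.A ⊗ B.A
  g := A.g + B.g
  dim_eq := by rw [T.dim_tensor, A.dim_eq, B.dim_eq]; push_cast; rfl
  coh := by
    intro n j x hx
    rw [id_tensor_zpow]
    have h1 := T.kunneth A.A B.A j hx
    clear hx
    induction h1 using Submodule.span_induction with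
    | zero => simp
    | add y z _ _ hy hz => rw [map_add, hy, hz, smul_add]
    | smul c y _ hy =>
      rw [map_smul, hy]
      exact smul_comm _ _ _
    | mem y hy =>
      obtain ⟨a, b, x, y, hab, hx, hy, rfl⟩ := hy
      by_cases ha : a < 0
      · rw [T.H_bot A.A a (Or.inl ha), Submodule.mem_bot] at hx
        rw [hx]; simp
      by_cases hb : b < 0
      · rw [T.H_bot B.A b (Or.inl hb), Submodule.mem_bot] at hy
        rw [hy]; simp
      push Not at ha hb
      rw [map_mul (T.H.pull _), ← T.H.pull_comp, ← T.H.pull_comp, tensorHom_fst, tensorHom_snd,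
        T.H.pull_comp, T.H.pull_comp, A.coh_int n ha hx, B.coh_int n hb hy, map_smul, map_smul,
        smul_mul_smul_comm, ← pow_add]
      congr 2
      omega
  degree := by
    intro n hn
    rw [id_tensor_zpow]
    have h1 : ((𝟙 A.A : A.A ⟶ A.A) ^ n) ⊗ₘ ((𝟙 B.A : B.A ⟶ B.A) ^ n) =
        ((𝟙 A.A : A.A ⟶ A.A) ^ n) ▷ B.A ≫ A.A ◁ ((𝟙 B.A : B.A ⟶ B.A) ^ n) := by
      rw [MonoidalCategory.tensorHom_def]
    rw [h1, T.CH.push_comp, T.CH.push_one_whisker, A.degree n hn, map_smul,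
      map_one (T.CH.pull (fst A.A B.A)), map_smul, push_whiskerLeft_one T.CH _ _ _ (B.degree n hn),
      smul_smul, ← pow_add]
    congr 2
    ring

/-- the zero-dimensional abelian variety -/
def unit (T : CycleData.{u, v, w} V) [T.Textbook] : AbVar T where
  A := 𝟙_ V
  g := 0
  dim_eq := by rw [T.dim_unit]; rfl
  coh := by
    intro n j x hx
    rw [toUnit_unique ((𝟙 (𝟙_ V) : 𝟙_ V ⟶ 𝟙_ V) ^ n) (𝟙 (𝟙_ V)), T.H.pull_id]
    rcases Nat.eq_zero_or_pos j with rfl | hj
    · simp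
    · rw [T.H_bot (𝟙_ V) j (Or.inr (by rw [T.dim_unit]; omega)), Submodule.mem_bot] at hx
      rw [hx]; simp
  degree := by
    intro n _
    rw [toUnit_unique ((𝟙 (𝟙_ V) : 𝟙_ V ⟶ 𝟙_ V) ^ n) (𝟙 (𝟙_ V)), T.CH.push_id]
    simp

/-- the powers of an abelian variety -/
def pow (A : AbVar T) : ℕ → AbVar T
  | 0 => unit T
  | N + 1 => (A.pow N).prod A

theorem pow_g (A : AbVar T) (N : ℕ) : (A.pow N).g = N * A.g := by
  induction N with
  | zero => simp [pow, unit]
  | succ N ih => simp only [pow, prod]; rw [ih]; ring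

/-- abelian varieties are of abelian type -/
theorem abelianType (A : AbVar T) : T.AbelianType A.A := by
  refine ⟨Unit, inferInstance, fun _ => A, fun _ => 0, fun _ => T.CH.diag A.A,
    fun _ => T.CH.diag A.A, fun _ => ?_, fun _ => ?_, ?_⟩
  · exact T.gr_congr (T.diag_mem A.A) (by ring)
  · exact T.gr_congr (T.diag_mem A.A) (by rw [A.dim_eq]; ring)
  · simp [RingData.comp_diag]

/-- the projection of `A^(N+1)` to `A^N` -/
def pfst (A : AbVar T) (N : ℕ) : (A.pow (N + 1)).A ⟶ (A.pow N).A := fst (A.pow N).A A.A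

/-- the last projection of `A^(N+1)` -/
def psnd (A : AbVar T) (N : ℕ) : (A.pow (N + 1)).A ⟶ A.A := snd (A.pow N).A A.A

/-- the projections of `A^N` -/
def pr (A : AbVar T) : ∀ N : ℕ, Fin N → ((A.pow N).A ⟶ A.A)
  | 0 => fun i => i.elim0
  | N + 1 => Fin.lastCases (A.psnd N) fun i => A.pfst N ≫ A.pr N i

/-- pairing -/
def plift (A : AbVar T) {X : V} (N : ℕ) (f : X ⟶ (A.pow N).A) (g : X ⟶ A.A) :
    X ⟶ (A.pow (N + 1)).A := lift f g

theorem plift_pfst (A : AbVar T) {X : V} (N : ℕ) (f : X ⟶ (A.pow N).A) (g : X ⟶ A.A) :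
    A.plift N f g ≫ A.pfst N = f := lift_fst f g

theorem plift_psnd (A : AbVar T) {X : V} (N : ℕ) (f : X ⟶ (A.pow N).A) (g : X ⟶ A.A) :
    A.plift N f g ≫ A.psnd N = g := lift_snd f g

/-- the morphism to `A^N` with given components -/
def tup (A : AbVar T) {X : V} : ∀ N : ℕ, (Fin N → (X ⟶ A.A)) → (X ⟶ (A.pow N).A)
  | 0 => fun _ => toUnit X
  | N + 1 => fun f => A.plift N (A.tup N fun i => f i.castSucc) (f (Fin.last N))

theorem pr_last (A : AbVar T) (N : ℕ) : A.pr (N + 1) (Fin.last N) = A.psnd N := by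
  simp [pr]

theorem pr_castSucc (A : AbVar T) (N : ℕ) (i : Fin N) :
    A.pr (N + 1) i.castSucc = A.pfst N ≫ A.pr N i := by
  simp [pr]

theorem tup_pr (A : AbVar T) {X : V} (N : ℕ) (f : Fin N → (X ⟶ A.A)) (i : Fin N) :
    A.tup N f ≫ A.pr N i = f i := by
  induction N with
  | zero => exact i.elim0
  | succ N ih =>
    refine Fin.lastCases ?_ (fun i => ?_) i
    · rw [pr_last]
      exact A.plift_psnd N _ _
    · rw [pr_castSucc, ← Category.assoc]
      have : A.tup (N + 1) f ≫ A.pfst N = A.tup N fun i => f i.castSucc :=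
        A.plift_pfst N _ _
      rw [this, ih]

theorem pow_ext (A : AbVar T) {X : V} (N : ℕ) (f g : X ⟶ (A.pow N).A)
    (h : ∀ i, f ≫ A.pr N i = g ≫ A.pr N i) : f = g := by
  induction N with
  | zero => exact toUnit_unique _ _
  | succ N ih =>
    have h1 : f ≫ A.pfst N = g ≫ A.pfst N := by
      refine ih _ _ fun i => ?_
      have := h i.castSucc
      rw [pr_castSucc] at this
      rw [Category.assoc, Category.assoc, this]
    have h2 : f ≫ A.psnd N = g ≫ A.psnd N := by
      have := h (Fin.last N)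
      rwa [pr_last] at this
    exact hom_ext (X := (A.pow N).A) (Y := A.A) f g h1 h2

end AbVar

end Pool.Agent.Lib.MP_32dfd1_ag.Cyc
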