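import Mathlib
import Pool.Agent.Lib.MP_32dfd1_ag.Cyc.Ab
import Pool.Agent.Lib.MP_32dfd1_ag.Cyc.SG

set_option autoImplicit false
set_option linter.unusedSectionVars false

/-!
# Sign changes on the powers of an abelian variety
-/

namespace Pool.Agent.Lib.MP_32dfd1_ag.Cyc

open CategoryTheory MonoidalCategory CartesianMonoidalCategory MonObj

universe u v w

variable {V : Type u} [Category.{v} V] [CartesianMonoidalCategory V] [BraidedCategory V]
  {T : CycleData.{u, v, w} V} [T.Textbook]

namespace AbVar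

variable (A : AbVar T)

/-- the action of sign changes -/
def sgn (N : ℕ) (ε : Fin N → ℤˣ) : (A.pow N).A ⟶ (A.pow N).A :=
  A.tup N fun i => (A.pr N i) ^ ((ε i : ℤˣ) : ℤ)

theorem sgn_pr (N : ℕ) (ε : Fin N → ℤˣ) (i : Fin N) :
    A.sgn N ε ≫ A.pr N i = (A.pr N i) ^ ((ε i : ℤˣ) : ℤ) := A.tup_pr N _ i

theorem sgn_one (N : ℕ) : A.sgn N 1 = 𝟙 _ := by
  refine A.pow_ext N _ _ fun i => ?_
  rw [sgn_pr]
  simp

theorem sgn_mul (N : ℕ) (ε d : Fin N → ℤˣ) : A.sgn N (ε * d) = A.sgn N d ≫ A.sgn N ε := by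
  refine A.pow_ext N _ _ fun i => ?_
  rw [sgn_pr, Category.assoc, sgn_pr, GrpObj.comp_zpow, sgn_pr, ← zpow_mul]
  congr 1
  rw [Pi.mul_apply, Units.val_mul, mul_comm]

theorem sgn_pfst (N : ℕ) (ε : Fin (N + 1) → ℤˣ) :
    A.sgn (N + 1) ε ≫ A.pfst N = A.pfst N ≫ A.sgn N fun i => ε i.castSucc := by
  refine A.pow_ext N _ _ fun i => ?_
  rw [Category.assoc, Category.assoc, sgn_pr, GrpObj.comp_zpow, ← pr_castSucc, sgn_pr]

theorem sgn_psnd (N : ℕ) (ε : Fin (N + 1) → ℤˣ) :
    A.sgn (N + 1) ε ≫ A.psnd N = A.psnd N ≫ (𝟙 A.A : A.A ⟶ A.A) ^ ((ε (Fin.last N) : ℤˣ) : ℤ) := by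
  rw [GrpObj.comp_zpow, Category.comp_id, ← pr_last, sgn_pr]

/-- classes of given weights for the sign changes -/
def wts (N : ℕ) (j : ℤ) : Set (T.H.R (A.pow N).A) :=
  {x | ∃ a : Fin N → ℕ, (∑ i, (a i : ℤ)) = j ∧ ∀ ε : Fin N → ℤˣ,
      T.H.pull (A.sgn N ε) x = (((∏ i, ε i ^ a i : ℤˣ) : ℤ) : ℚ) • x}

theorem span_wts (N : ℕ) (j : ℤ) :
    T.H.gr (A.pow N).A j ≤ Submodule.span ℚ (A.wts N j) := by
  induction N generalizing j with
  | zero =>
    intro x hx
    by_cases hj : j = 0
    · refine Submodule.subset_span ⟨fun i => i.elim0, by simp [hj], fun ε => ?_⟩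
      rw [show ε = 1 from Subsingleton.elim _ _, sgn_one, T.H.pull_id]
      simp
    · have h0 : T.H.gr (A.pow 0).A j = ⊥ := by
        have h1 : T.dim (A.pow 0).A = 0 := T.dim_unit
        rcases lt_or_gt_of_ne hj with h | h
        · exact T.H_bot _ j (Or.inl h)
        · exact T.H_bot _ j (Or.inr (by rw [h1]; omega))
      rw [h0, Submodule.mem_bot] at hx
      rw [hx]
      exact Submodule.zero_mem _
  | succ N ih =>
    intro x hx
    have h1 := T.kunneth (A.pow N).A A.A j hx
    refine Submodule.span_le.2 ?_ h1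
    rintro _ ⟨p, q, y, z, hpq, hy, hz, rfl⟩
    by_cases hq : q < 0
    · rw [T.H_bot A.A q (Or.inl hq), Submodule.mem_bot] at hz
      rw [hz, map_zero, mul_zero]
      exact Submodule.zero_mem _
    push Not at hq
    have h2 := ih p hy
    clear hx hy
    change T.H.pull (A.pfst N) y * T.H.pull (A.psnd N) z ∈ Submodule.span ℚ (A.wts (N + 1) j)
    induction h2 using Submodule.span_induction with
    | zero => simp
    | add y y' _ _ hy hy' => rw [map_add, add_mul]; exact Submodule.add_mem _ hy hy'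
    | smul c y _ hy => rw [map_smul, smul_mul_assoc]; exact Submodule.smul_mem _ _ hy
    | mem y hy =>
      obtain ⟨a, ha, hy⟩ := hy
      refine Submodule.subset_span ⟨Fin.snoc (α := fun _ => ℕ) a q.toNat, ?_, fun ε => ?_⟩
      · rw [Fin.sum_univ_castSucc]
        simp only [Fin.snoc_castSucc, Fin.snoc_last]
        rw [ha]
        omega
      · rw [map_mul (T.H.pull _), ← T.H.pull_comp, ← T.H.pull_comp, sgn_pfst, sgn_psnd,
          T.H.pull_comp, T.H.pull_comp, hy, A.coh_int _ hq hz, map_smul, map_smul,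
          smul_mul_smul_comm]
        congr 1
        rw [Fin.prod_univ_castSucc]
        simp only [Fin.snoc_castSucc, Fin.snoc_last]
        push_cast
        ring

/-- No invariant classes of odd degree smaller than `N`. -/
theorem invariants (N : ℕ) (j : ℤ) (hj : Odd j) (hjN : j < N) (x : T.H.R (A.pow N).A)
    (hx : x ∈ T.H.gr (A.pow N).A j) (hinv : ∀ g : SG N, T.H.pull (A.sgn N g.1) x = x) : x = 0 := by
  classical
  let E : T.H.R (A.pow N).A →ₗ[ℚ] T.H.R (A.pow N).A :=
    ∑ g : SG N, (T.H.pull (A.sgn N g.1)).toLinearMap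
  have hE : ∀ y, E y = ∑ g : SG N, T.H.pull (A.sgn N g.1) y := by
    intro y
    simp [E, LinearMap.sum_apply]
  have hshift : ∀ (h : SG N) (y : T.H.R (A.pow N).A), E (T.H.pull (A.sgn N h.1) y) = E y := by
    intro h y
    rw [hE, hE]
    have : ∀ g : SG N, T.H.pull (A.sgn N g.1) (T.H.pull (A.sgn N h.1) y) =
        T.H.pull (A.sgn N (h * g).1) y := by
      intro g
      rw [Subgroup.coe_mul, A.sgn_mul, T.H.pull_comp]
    rw [Finset.sum_congr rfl fun g _ => this g]
    exact Fintype.sum_equiv (Equiv.mulLeft h) _ _ fun g => rfl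
  have hE0 : ∀ x ∈ Submodule.span ℚ (A.wts N j), E x = 0 := by
    intro x hx
    induction hx using Submodule.span_induction with
    | zero => simp
    | add y z _ _ hy hz => rw [map_add, hy, hz, add_zero]
    | smul c y _ hy => rw [map_smul, hy, smul_zero]
    | mem y hy =>
      obtain ⟨a, ha, hy⟩ := hy
      -- two coordinates of different parity
      obtain ⟨i, hi⟩ : ∃ i, Even (a i) := by
        by_contra hcon
        push Not at hcon
        have h1 : (N : ℤ) ≤ ∑ i, (a i : ℤ) := by
          have : ∀ i ∈ (Finset.univ : Finset (Fin N)), (1 : ℤ) ≤ a i := by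
            intro i _
            have := hcon i
            have : a i ≠ 0 := fun h => this (by rw [h]; exact Even.zero)
            omega
          calc (N : ℤ) = ∑ i : Fin N, (1 : ℤ) := by simp
            _ ≤ _ := Finset.sum_le_sum this
        omega
      obtain ⟨k, hk⟩ : ∃ k, Odd (a k) := by
        by_contra hcon
        push Not at hcon
        have h1 : Even (∑ i, (a i : ℤ)) := by
          refine Finset.even_sum _ fun i _ => ?_
          have := hcon i
          exact_mod_cast (Nat.not_odd_iff_even.1 this)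
        rw [ha] at h1
        exact (Int.not_even_iff_odd.2 hj) h1
      have hik : i ≠ k := by
        rintro rfl
        exact (Nat.not_even_iff_odd.2 hk) hi
      let ε : Fin N → ℤˣ := fun l => if l = i ∨ l = k then -1 else 1
      have hprod : ∀ f : Fin N → ℤˣ, (∀ l, l ≠ i → l ≠ k → f l = 1) →
          ∏ l, f l = f i * f k := by
        intro f hf
        rw [← Finset.mul_prod_erase _ f (Finset.mem_univ i),
          ← Finset.mul_prod_erase _ f (Finset.mem_erase.2 ⟨hik.symm, Finset.mem_univ k⟩),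
          Finset.prod_eq_one, _root_.mul_one]
        intro l hl
        rw [Finset.mem_erase, Finset.mem_erase] at hl
        exact hf l hl.2.1 hl.1
      have hε : ε ∈ SG N := by
        rw [mem_SG, hprod ε fun l h1 h2 => by simp [ε, h1, h2]]
        simp [ε]
      have hval : ∏ l, ε l ^ a l = -1 := by
        rw [hprod (fun l => ε l ^ a l) fun l h1 h2 => by simp [ε, h1, h2]]
        simp [ε, hi.neg_one_pow, hk.neg_one_pow]
      have h1 := hshift ⟨ε, hε⟩ y
      have h2 : T.H.pull (A.sgn N ε) y = -y := by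
        have := hy ε
        rw [hval] at this
        rw [this]
        simp
      rw [h2, map_neg] at h1
      have h3 : (2 : ℚ) • E y = 0 := by
        rw [two_smul]
        nth_rewrite 1 [← h1]
        simp
      exact (smul_eq_zero.1 h3).resolve_left (by norm_num)
  have h1 : E x = (Fintype.card (SG N)) • x := by
    rw [hE, Finset.sum_congr rfl fun g _ => hinv g]
    simp
  rw [hE0 x (A.span_wts N j hx)] at h1
  have h2 : ((Fintype.card (SG N) : ℕ) : ℚ) • x = 0 := by
    rw [Nat.cast_smul_eq_nsmul, ← h1]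
  have h3 : ((Fintype.card (SG N) : ℕ) : ℚ) ≠ 0 := by
    exact_mod_cast Fintype.card_ne_zero
  exact (smul_eq_zero.1 h2).resolve_left h3

end AbVar

end Pool.Agent.Lib.MP_32dfd1_ag.Cyc
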