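import Mathlib
import Pool.Agent.Lib.MP_32dfd1_ag.Cyc.SG

set_option autoImplicit false

namespace Pool.Agent.Lib.MP_32dfd1_ag.Cyc

section Rel

set_option linter.unusedSectionVars false

variable {Λ W : Type*} [AddCommGroup Λ] [AddCommGroup W] [Module ℚ W]

/-- The relation satisfied by the functions `n ↦ [n]^* z`. -/
def SignRel (N : ℕ) (F : Λ → W) : Prop :=
  ∀ v : Fin N → Λ, ∑ g : SG N, F (∑ i, ((g.1 i : ℤˣ) : ℤ) • v i) = 0

theorem SignRel.odd {k : ℕ} {F : Λ → W} (h : SignRel (k + 2) F) (x : Λ) : F (-x) = - F x := by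
  classical
  have h1 := h (Pi.single 0 x)
  have h2 : ∀ g : SG (k + 2), (∑ i, ((g.1 i : ℤˣ) : ℤ) • (Pi.single 0 x : Fin (k + 2) → Λ) i) =
      ((g.1 0 : ℤˣ) : ℤ) • x := by
    intro g
    rw [Finset.sum_eq_single 0]
    · simp
    · intro b _ hb
      simp [hb]
    · simp
  rw [Finset.sum_congr rfl fun g _ => by rw [h2 g]] at h1
  let ε : Fin (k + 2) → ℤˣ := fun l => if l = 0 ∨ l = 1 then -1 else 1
  have hε : ε ∈ SG (k + 2) := by
    rw [mem_SG, Fin.prod_univ_succ, Fin.prod_univ_succ]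
    have : ∀ i : Fin k, ε i.succ.succ = 1 := by
      intro i
      simp only [ε]
      rw [if_neg]
      rintro (h | h)
      · exact absurd h (Fin.succ_ne_zero _)
      · have := congrArg Fin.val h
        simp at this
    rw [Finset.prod_congr rfl fun i _ => this i]
    simp [ε]
  have h3 : ∑ g : SG (k + 2), F (((g.1 0 : ℤˣ) : ℤ) • x) =
      ∑ g : SG (k + 2), F (-(((g.1 0 : ℤˣ) : ℤ) • x)) := by
    refine Fintype.sum_equiv (Equiv.mulLeft ⟨ε, hε⟩) _ _ fun g => ?_
    congr 1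
    simp [ε]
  have h4 : ∑ g : SG (k + 2), (F (((g.1 0 : ℤˣ) : ℤ) • x) + F (-(((g.1 0 : ℤˣ) : ℤ) • x))) = 0 := by
    rw [Finset.sum_add_distrib, ← h3, h1, add_zero]
  have h5 : ∀ g : SG (k + 2), F (((g.1 0 : ℤˣ) : ℤ) • x) + F (-(((g.1 0 : ℤˣ) : ℤ) • x)) =
      F x + F (-x) := by
    intro g
    rcases Int.units_eq_one_or (g.1 0) with h | h
    · rw [h]; simp
    · rw [h]; simp [add_comm]
  rw [Finset.sum_congr rfl fun g _ => h5 g, Finset.sum_const, Finset.card_univ] at h4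
  have h6 : ((Fintype.card (SG (k + 2)) : ℕ) : ℚ) • (F x + F (-x)) = 0 := by
    rw [Nat.cast_smul_eq_nsmul, h4]
  have h7 : ((Fintype.card (SG (k + 2)) : ℕ) : ℚ) ≠ 0 := by
    exact_mod_cast Fintype.card_ne_zero
  have h8 := (smul_eq_zero.1 h6).resolve_left h7
  exact (neg_eq_of_add_eq_zero_right h8).symm

theorem unit_smul_of_odd {F : Λ → W} (h : ∀ x, F (-x) = - F x) (s : ℤˣ) (x : Λ) :
    F ((s : ℤ) • x) = (s : ℤ) • F x := by
  rcases Int.units_eq_one_or s with hs | hs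
  · rw [hs]; simp
  · rw [hs]; simp [h]

/-- parametrisation of the even sign changes -/
def SGequiv (n : ℕ) : (Fin n → ℤˣ) ≃ SG (n + 1) where
  toFun ε := ⟨Fin.cons (∏ i, ε i) ε, by
    rw [mem_SG, Fin.prod_univ_succ]
    simp only [Fin.cons_zero, Fin.cons_succ]
    exact Int.units_mul_self _⟩
  invFun g := fun i => g.1 i.succ
  left_inv ε := by
    funext i
    simp
  right_inv g := by
    refine Subtype.ext ?_
    have h := g.2
    rw [mem_SG, Fin.prod_univ_succ] at h
    funext i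
    refine Fin.cases ?_ (fun j => ?_) i
    · simp only [Fin.cons_zero]
      have h2 := Int.units_mul_self (∏ i : Fin n, g.1 i.succ)
      exact (mul_right_cancel (h.trans h2.symm)).symm
    · simp

theorem SignRel.diff {k : ℕ} {F : Λ → W} (h : SignRel (2 * k + 3) F) (v : Fin (2 * k + 2) → Λ)
    (x : Λ) : ∑ ε : Fin (2 * k + 2) → ℤˣ, ((∏ i, ε i : ℤˣ) : ℤ) •
      F (x + ∑ i, ((ε i : ℤˣ) : ℤ) • v i) = 0 := by
  have hodd : ∀ x, F (-x) = - F x := fun x => SignRel.odd (k := 2 * k + 1) h x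
  have h1 := h (Fin.cons x v)
  rw [← Fintype.sum_equiv (SGequiv (2 * k + 2)) _ _ (fun g => rfl)] at h1
  have h2 : ∀ ε : Fin (2 * k + 2) → ℤˣ,
      F (∑ i, (((SGequiv (2 * k + 2) ε).1 i : ℤˣ) : ℤ) • (Fin.cons x v : Fin (2 * k + 3) → Λ) i) =
      ((∏ i, ε i : ℤˣ) : ℤ) • F (x + ∑ i, (((∏ j, ε j) * ε i : ℤˣ) : ℤ) • v i) := by
    intro ε
    rw [← unit_smul_of_odd hodd, Fin.sum_univ_succ]
    congr 1
    simp only [SGequiv, Equiv.coe_fn_mk, Fin.cons_zero, Fin.cons_succ, smul_add]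
    congr 1
    rw [Finset.smul_sum]
    refine Finset.sum_congr rfl fun i _ => ?_
    rw [smul_smul, ← Units.val_mul, ← mul_assoc, Int.units_mul_self, one_mul]
  rw [Finset.sum_congr rfl fun ε _ => h2 ε] at h1
  have hinv : ∀ ε : Fin (2 * k + 2) → ℤˣ, ∏ i, ((∏ j, ε j) * ε i) = ∏ i, ε i := by
    intro ε
    have hs : ∀ s : ℤˣ, s ^ (2 * k + 2) = 1 := by
      intro s
      rw [show 2 * k + 2 = 2 * (k + 1) by ring, pow_mul, sq, Int.units_mul_self, one_pow]
    rw [Finset.prod_mul_distrib, Finset.prod_const, Finset.card_univ, Fintype.card_fin, hs,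
      one_mul]
  let τ : (Fin (2 * k + 2) → ℤˣ) ≃ (Fin (2 * k + 2) → ℤˣ) :=
    { toFun := fun ε i => (∏ j, ε j) * ε i
      invFun := fun ε i => (∏ j, ε j) * ε i
      left_inv := by
        intro ε
        funext i
        simp only
        rw [hinv, ← mul_assoc, Int.units_mul_self, one_mul]
      right_inv := by
        intro ε
        funext i
        simp only
        rw [hinv, ← mul_assoc, Int.units_mul_self, one_mul] }
  rw [← h1]
  refine Fintype.sum_equiv τ _ _ fun ε => ?_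
  have hτ : ∀ i, τ ε i = (∏ j, ε j) * ε i := fun i => rfl
  have hτp : ∏ i, τ ε i = ∏ i, ε i := by
    rw [Finset.prod_congr rfl fun i _ => hτ i, hinv]
  rw [hτp]
  congr 3
  refine Finset.sum_congr rfl fun i _ => ?_
  rw [hτ, ← mul_assoc, Int.units_mul_self, one_mul]

/-- central difference -/
def cd (F : ℤ → W) : ℤ → W := fun x => F (x + 1) - F (x - 1)

theorem sum_sign_eq (n : ℕ) (F : ℤ → W) (x : ℤ) :
    ∑ ε : Fin n → ℤˣ, ((∏ i, ε i : ℤˣ) : ℤ) • F (x + ∑ i, ((ε i : ℤˣ) : ℤ) • (1 : ℤ)) =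
      cd^[n] F x := by
  induction n generalizing F x with
  | zero => simp
  | succ n ih =>
    rw [Function.iterate_succ_apply, ← ih]
    rw [← Fintype.sum_equiv (Fin.consEquiv fun _ : Fin (n + 1) => ℤˣ) _ _ (fun g => rfl),
      Fintype.sum_prod_type_right]
    refine Finset.sum_congr rfl fun ε _ => ?_
    have huniv : (Finset.univ : Finset ℤˣ) = {1, -1} := rfl
    rw [huniv, Finset.sum_pair (by decide)]
    simp only [Fin.consEquiv, Equiv.coe_fn_mk, Fin.prod_univ_succ, Fin.sum_univ_succ,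
      Fin.cons_zero, Fin.cons_succ, cd]
    rw [one_mul, neg_one_mul, Units.val_neg, neg_smul, smul_sub, sub_eq_add_neg]
    congr 3
    · rw [Units.val_one, one_smul]; ring
    · congr 1
      rw [Units.val_neg, Units.val_one, neg_smul, one_smul]; ring

/-- The relation implies that `F` is polynomial on even integers. -/
theorem SignRel.cd_eq_zero {k : ℕ} {F : ℤ → W} (h : SignRel (2 * k + 3) F) (x : ℤ) :
    cd^[2 * k + 2] F x = 0 := by
  rw [← sum_sign_eq]
  exact h.diff (fun _ => 1) x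

theorem fwdDiff_even (n : ℕ) (F : ℤ → W) (c : ℤ) (k : ℕ) :
    (fwdDiff 1)^[n] (fun k : ℕ => F (2 * k + c)) k = cd^[n] F (2 * k + n + c) := by
  induction n generalizing F c with
  | zero => simp
  | succ n ih =>
    rw [Function.iterate_succ_apply, Function.iterate_succ_apply]
    have : fwdDiff 1 (fun k : ℕ => F (2 * k + c)) = fun k : ℕ => cd F (2 * k + (c + 1)) := by
      funext k
      simp only [fwdDiff, cd]
      have e1 : (2 * ((k + 1 : ℕ) : ℤ) + c) = 2 * k + (c + 1) + 1 := by push_cast; ring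
      have e2 : (2 * (k : ℤ) + c) = 2 * k + (c + 1) - 1 := by ring
      rw [e1, ← e2]
    rw [this, ih]
    have e3 : (2 * (k : ℤ) + n + (c + 1)) = 2 * k + (n + 1 : ℕ) + c := by push_cast; ring
    rw [e3]

/-- binomial expansion on the even integers -/
theorem SignRel.expand {k : ℕ} {F : ℤ → W} (h : SignRel (2 * k + 3) F) :
    ∃ c : ℕ → W, ∀ l : ℕ, F (2 * l) = ∑ i ∈ Finset.range (2 * k + 2), (l.choose i) • c i := by
  refine ⟨fun i => (fwdDiff 1)^[i] (fun k : ℕ => F (2 * k + 0)) 0, fun l => ?_⟩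
  have h1 := shift_eq_sum_fwdDiff_iter 1 (fun k : ℕ => F (2 * k + 0)) l 0
  have hz : ∀ i, 2 * k + 2 ≤ i → (fwdDiff 1)^[i] (fun k : ℕ => F (2 * k + 0)) 0 = 0 := by
    intro i hi
    obtain ⟨j, rfl⟩ := Nat.exists_eq_add_of_le' hi
    rw [Function.iterate_add_apply]
    have : (fwdDiff 1)^[2 * k + 2] (fun k : ℕ => F (2 * k + 0)) = fun _ => 0 := by
      funext l
      rw [fwdDiff_even, h.cd_eq_zero]
    rw [this]
    clear h1 hi
    induction j with
    | zero => rfl
    | succ j ih =>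
      rw [Function.iterate_succ_apply]
      have : (fwdDiff 1 fun _ : ℕ => (0 : W)) = fun _ => 0 := by
        funext l; simp [fwdDiff]
      rw [this, ih]
  have h2 : F (2 * l) = ∑ k ∈ Finset.range (l + 1), l.choose k •
      (fwdDiff 1)^[k] (fun k : ℕ => F (2 * k + 0)) 0 := by
    rw [← h1]
    simp
  rw [h2]
  by_cases hl : l + 1 ≤ 2 * k + 2
  · refine Finset.sum_subset (Finset.range_subset_range.2 hl) fun i _ hi => ?_
    rw [Finset.mem_range, not_lt] at hi
    rw [Nat.choose_eq_zero_of_lt (by omega), zero_smul]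
  · symm
    refine Finset.sum_subset (Finset.range_subset_range.2 (by omega)) fun i _ hi => ?_
    rw [Finset.mem_range, not_lt] at hi
    change l.choose i • (fwdDiff 1)^[i] (fun k : ℕ => F (2 * k + 0)) 0 = 0
    rw [hz i hi, smul_zero]

end Rel

end Pool.Agent.Lib.MP_32dfd1_ag.Cyc
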