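import Mathlib
import Pool.Agent.Lib.MP_32dfd1_ag.Cyc.Alg

set_option autoImplicit false

namespace Pool.Agent.Lib.MP_32dfd1_ag.Cyc

open Polynomial

/-- the polynomial with roots `1, 2, 4, ..., 2 ^ (n - 1)` -/
noncomputable def qp (n : ℕ) : ℚ[X] := ∏ j ∈ Finset.range n, (X - C (2 ^ j : ℚ))

theorem qp_natDegree (n : ℕ) : (qp n).natDegree = n := by
  unfold qp
  rw [natDegree_prod_of_monic _ _ fun i _ => monic_X_sub_C _,
    Finset.sum_congr rfl fun i _ => natDegree_X_sub_C _]
  simp

theorem qp_eval (n j : ℕ) (h : j < n) : (qp n).eval (2 ^ j : ℚ) = 0 := by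
  unfold qp
  rw [eval_prod]
  exact Finset.prod_eq_zero (Finset.mem_range.2 h) (by simp)

theorem qp_sum (n : ℕ) (D : ℚ[X]) (hD : D.natDegree < n) :
    ∑ l ∈ Finset.range (n + 1), (qp n).coeff l * D.eval (2 ^ l : ℚ) = 0 := by
  have h1 : ∀ l, D.eval (2 ^ l : ℚ) = ∑ j ∈ Finset.range n, D.coeff j * (2 ^ l) ^ j :=
    fun l => eval_eq_sum_range' hD _
  have h2 : ∀ j ∈ Finset.range n,
      ∑ l ∈ Finset.range (n + 1), (qp n).coeff l * (2 ^ j : ℚ) ^ l = 0 := by
    intro j hj
    rw [← eval_eq_sum_range' (by rw [qp_natDegree]; omega)]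
    exact qp_eval n j (Finset.mem_range.1 hj)
  calc ∑ l ∈ Finset.range (n + 1), (qp n).coeff l * D.eval (2 ^ l : ℚ)
      = ∑ l ∈ Finset.range (n + 1), ∑ j ∈ Finset.range n,
          D.coeff j * ((qp n).coeff l * (2 ^ j : ℚ) ^ l) := by
        refine Finset.sum_congr rfl fun l _ => ?_
        rw [h1, Finset.mul_sum]
        refine Finset.sum_congr rfl fun j _ => ?_
        rw [← pow_mul, ← pow_mul, mul_comm l j]
        ring
    _ = ∑ j ∈ Finset.range n, ∑ l ∈ Finset.range (n + 1),
          D.coeff j * ((qp n).coeff l * (2 ^ j : ℚ) ^ l) := Finset.sum_comm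
    _ = 0 := by
        refine Finset.sum_eq_zero fun j hj => ?_
        rw [← Finset.mul_sum, h2 j hj, mul_zero]

theorem choose_eval (i t : ℕ) :
    ((t.choose i : ℕ) : ℚ) = (C (1 / (i.factorial : ℚ)) * descPochhammer ℚ i).eval (t : ℚ) := by
  rw [eval_mul, eval_C, descPochhammer_eval_eq_descFactorial, Nat.descFactorial_eq_factorial_mul_choose]
  have : (i.factorial : ℚ) ≠ 0 := by exact_mod_cast Nat.factorial_ne_zero i
  push_cast
  field_simp

theorem choose_natDegree (i : ℕ) :
    (C (1 / (i.factorial : ℚ)) * descPochhammer ℚ i).natDegree ≤ i := by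
  refine (natDegree_C_mul_le _ _).trans ?_
  rw [descPochhammer_natDegree]

section

variable {W : Type*} [AddCommGroup W] [Module ℚ W]

theorem aeval_qp (n : ℕ) (N : Module.End ℚ W) (z : W) (F : ℤ → W) (c : ℕ → W)
    (hF : ∀ l : ℕ, F (2 * l) = ∑ i ∈ Finset.range n, (l.choose i) • c i)
    (hN : ∀ l : ℕ, F (2 * (2 ^ l : ℕ)) = (N ^ (l + 1)) z) : aeval N (qp n) (N z) = 0 := by
  rw [aeval_eq_sum_range, qp_natDegree, LinearMap.sum_apply]
  have h1 : ∀ l, ((qp n).coeff l • N ^ l) (N z) =
      ∑ i ∈ Finset.range n, ((qp n).coeff l * (((2 ^ l : ℕ).choose i : ℕ) : ℚ)) • c i := by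
    intro l
    rw [LinearMap.smul_apply, ← Module.End.mul_apply, ← pow_succ, ← hN, hF, Finset.smul_sum]
    refine Finset.sum_congr rfl fun i _ => ?_
    rw [mul_smul, Nat.cast_smul_eq_nsmul]
  rw [Finset.sum_congr rfl fun l _ => h1 l, Finset.sum_comm]
  refine Finset.sum_eq_zero fun i hi => ?_
  rw [← Finset.sum_smul]
  have h2 := qp_sum n (C (1 / (i.factorial : ℚ)) * descPochhammer ℚ i)
    ((choose_natDegree i).trans_lt (Finset.mem_range.1 hi))
  have h3 : ∀ l, (C (1 / (i.factorial : ℚ)) * descPochhammer ℚ i).eval (2 ^ l : ℚ) =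
      (((2 ^ l : ℕ).choose i : ℕ) : ℚ) := by
    intro l
    rw [choose_eval]
    norm_num
  rw [Finset.sum_congr rfl fun l _ => by rw [h3 l]] at h2
  rw [h2, zero_smul]

/-- The only common possibility for the eigenvalues. -/
theorem eigen (N M : Module.End ℚ W) (S : Set W) (hNS : ∀ z ∈ S, N z ∈ S)
    (hadd : ∀ z ∈ S, ∀ w ∈ S, z - w ∈ S) (hsm : ∀ (a : ℚ), ∀ z ∈ S, a • z ∈ S)
    (g a b : ℕ) (hab : a + b = 2 * g) (hMN : ∀ z, M (N z) = ((2 : ℚ) ^ (2 * g)) • z)
    (h1 : ∀ z ∈ S, aeval N (qp (a + 1)) (N z) = 0)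
    (h2 : ∀ z ∈ S, aeval M (qp (b + 1)) (M z) = 0) : ∀ z ∈ S, N z = ((2 : ℚ) ^ a) • z := by
  have hcomm : ∀ (q : ℚ[X]) (z : W), aeval N q (N z) = N (aeval N q z) := by
    intro q z
    have : aeval N q * N = N * aeval N q := by
      have h := (Commute.all q X).map (aeval N)
      rw [aeval_X] at h
      exact h
    exact LinearMap.congr_fun this z
  have hS : ∀ (q : ℚ[X]), ∀ z ∈ S, z ∈ S := fun _ z hz => hz
  -- products over subsets
  let Q : Finset ℕ → ℚ[X] := fun s => ∏ j ∈ s, (X - C (2 ^ j : ℚ))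
  have hQS : ∀ (s : Finset ℕ), ∀ z ∈ S, aeval N (Q s) z ∈ S := by
    intro s
    induction s using Finset.induction_on with
    | empty => intro z hz; simpa [Q] using hz
    | insert i s hi ih =>
      intro z hz
      simp only [Q]
      rw [Finset.prod_insert hi, map_mul, Module.End.mul_apply]
      have h3 := ih z hz
      rw [map_sub, aeval_X, aeval_C, LinearMap.sub_apply]
      exact hadd _ (hNS _ h3) _ (hsm _ _ h3)
  -- removal of a factor
  have key : ∀ (s : Finset ℕ) (i : ℕ), i ∉ s → i < a →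
      (∀ z ∈ S, aeval N (Q (insert i s)) z = 0) → ∀ z ∈ S, aeval N (Q s) z = 0 := by
    intro s i hi hia h z hz
    set u := aeval N (Q s) z with hu
    have hu1 : N u = (2 ^ i : ℚ) • u := by
      have h3 := h z hz
      simp only [Q] at h3
      rw [Finset.prod_insert hi, map_mul, Module.End.mul_apply, map_sub, aeval_X, aeval_C,
        LinearMap.sub_apply, sub_eq_zero] at h3
      exact h3
    have hu2 : M u = ((2 : ℚ) ^ (2 * g - i)) • u := by
      have h3 := hMN u
      rw [hu1, map_smul] at h3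
      have h4 : ((2 : ℚ) ^ (2 * g)) = 2 ^ i * 2 ^ (2 * g - i) := by
        rw [← pow_add]; congr 1; omega
      rw [h4, mul_smul] at h3
      exact smul_right_injective W (by positivity : ((2 : ℚ) ^ i) ≠ 0) h3
    have h3 := h2 u (hQS s z hz)
    rw [hu2, map_smul] at h3
    have h4 : aeval M (qp (b + 1)) u = (qp (b + 1)).eval ((2 : ℚ) ^ (2 * g - i)) • u := by
      have h5 : ∀ l : ℕ, (M ^ l) u = (((2 : ℚ) ^ (2 * g - i)) ^ l) • u := by
        intro l
        induction l with
        | zero => simp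
        | succ l ih => rw [pow_succ', Module.End.mul_apply, ih, map_smul, hu2, smul_smul, pow_succ]
      rw [aeval_eq_sum_range, LinearMap.sum_apply, eval_eq_sum_range, Finset.sum_smul]
      refine Finset.sum_congr rfl fun l _ => ?_
      rw [LinearMap.smul_apply, h5, smul_smul]
    rw [h4, smul_smul] at h3
    refine (smul_eq_zero.1 h3).resolve_left (mul_ne_zero (by positivity) ?_)
    unfold qp
    rw [eval_prod]
    refine Finset.prod_ne_zero_iff.2 fun j hj => ?_
    rw [Finset.mem_range] at hj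
    rw [eval_sub, eval_X, eval_C, sub_ne_zero]
    intro h6
    have h7 := pow_right_injective₀ (by norm_num : (0 : ℚ) < 2) (by norm_num) h6
    omega
  have hfull : ∀ z ∈ S, aeval N (Q (Finset.range (a + 1))) z = 0 := by
    intro z hz
    have h3 := h1 z hz
    rw [hcomm] at h3
    have h4 := hMN (aeval N (qp (a + 1)) z)
    rw [h3, map_zero] at h4
    exact (smul_eq_zero.1 h4.symm).resolve_left (by positivity)
  -- remove all small factors
  have hdown : ∀ n ≤ a, ∀ z ∈ S, aeval N (Q (Finset.Icc n a)) z = 0 := by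
    intro n
    induction n with
    | zero =>
      intro _
      have : Finset.range (a + 1) = Finset.Icc 0 a := by
        ext x; simp only [Finset.mem_range, Finset.mem_Icc]; omega
      rw [← this]; exact hfull
    | succ n ih =>
      intro hn
      refine key (Finset.Icc (n + 1) a) n (by simp) (by omega) ?_
      have : insert n (Finset.Icc (n + 1) a) = Finset.Icc n a := by
        ext x; simp only [Finset.mem_insert, Finset.mem_Icc]; omega
      rw [this]
      exact ih (by omega)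
  intro z hz
  have h3 := hdown a le_rfl z hz
  simp only [Q] at h3
  rw [Finset.Icc_self, Finset.prod_singleton, map_sub, aeval_X, aeval_C, LinearMap.sub_apply,
    sub_eq_zero] at h3
  exact h3

/-- The values at all even integers. -/
theorem even_values (n a : ℕ) (z : W) (F : ℤ → W) (c : ℕ → W)
    (hF : ∀ l : ℕ, F (2 * l) = ∑ i ∈ Finset.range n, (l.choose i) • c i)
    (hN : ∀ l : ℕ, F (2 * (2 ^ l : ℕ)) = ((2 : ℚ) ^ (a * (l + 1))) • z) (l : ℕ) :
    F (2 * l) = ((2 * l : ℚ) ^ a) • z := by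
  rw [← sub_eq_zero, ← Module.forall_dual_apply_eq_zero_iff ℚ]
  intro f
  let ρ : ℚ[X] := ∑ i ∈ Finset.range n, C (f (c i)) *
    (C (1 / (i.factorial : ℚ)) * descPochhammer ℚ i)
  let τ : ℚ[X] := C (2 ^ a * f z) * X ^ a
  have hρ : ∀ t : ℕ, ρ.eval (t : ℚ) = f (F (2 * t)) := by
    intro t
    simp only [ρ]
    rw [eval_finsetSum, hF, map_sum]
    refine Finset.sum_congr rfl fun i _ => ?_
    rw [eval_mul, eval_C, ← choose_eval, map_nsmul, nsmul_eq_mul, mul_comm]
  have hτ : ∀ t : ℕ, τ.eval (t : ℚ) = (2 * t : ℚ) ^ a * f z := by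
    intro t
    simp only [τ]
    rw [eval_mul, eval_C, eval_pow, eval_X, mul_pow]
    ring
  have heq : ρ = τ := by
    refine eq_of_infinite_eval_eq ρ τ ?_
    refine Set.Infinite.mono (s := Set.range fun l : ℕ => ((2 ^ l : ℕ) : ℚ)) ?_ ?_
    · rintro _ ⟨l, rfl⟩
      change ρ.eval _ = τ.eval _
      rw [hρ, hτ, hN, map_smul, smul_eq_mul, pow_mul]
      congr 1
      push_cast
      rw [← pow_succ', ← pow_mul, ← pow_mul, mul_comm]
    · refine Set.infinite_range_of_injective fun x y h => ?_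
      have h1 : (2 ^ x : ℕ) = 2 ^ y := by exact_mod_cast h
      exact Nat.pow_right_injective le_rfl h1
  rw [map_sub, map_smul, ← hρ, heq, hτ, smul_eq_mul, sub_self]

end

end Pool.Agent.Lib.MP_32dfd1_ag.Cyc
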