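import Mathlib
import Pool.Agent.Lib.MP_32dfd1_ag.Cyc.Sign
import Pool.Agent.Lib.MP_32dfd1_ag.Cyc.Spec

set_option autoImplicit false
set_option linter.unusedSectionVars false

/-!
# The relations given by Q1 for the Godeaux-Serre quotients of the powers of an abelian variety
-/

namespace Pool.Agent.Lib.MP_32dfd1_ag.Cyc

open CategoryTheory MonoidalCategory CartesianMonoidalCategory MonObj

universe u v w

variable {V : Type u} [Category.{v} V] [CartesianMonoidalCategory V] [BraidedCategory V]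

theorem comp_prod {X Y G : V} [GrpObj G] [IsCommMonObj G] (f : X ⟶ Y) {I : Type*} (s : Finset I)
    (g : I → (Y ⟶ G)) : f ≫ ∏ i ∈ s, g i = ∏ i ∈ s, (f ≫ g i) := by
  classical
  induction s using Finset.induction_on with
  | empty => rw [Finset.prod_empty, Finset.prod_empty, MonObj.comp_one]
  | insert i s hi ih => rw [Finset.prod_insert hi, Finset.prod_insert hi, MonObj.comp_mul, ih]

variable {T : CycleData.{u, v, w} V} [T.Textbook]

namespace AbVar

variable (A : AbVar T)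

theorem vanish_hyp (N : ℕ) (j : ℤ) (hj : Odd j) (hjN : j < N) (i : ℕ)
    (x : T.H.R (A.pow N).A) (hx : x ∈ T.H.gr (A.pow N).A (j - 2 * i))
    (hinv : ∀ g : SG N, T.H.pull (A.sgn N g.1) x = x) : x = 0 := by
  refine A.invariants N (j - 2 * i) ?_ (by omega) x hx hinv
  obtain ⟨c, hc⟩ := hj
  exact ⟨c - i, by rw [hc]; ring⟩

theorem sq_one {N : ℕ} (g : SG N) : g * g = 1 := by
  refine Subtype.ext ?_
  funext i
  exact Int.units_mul_self _

/-- The relation given by Q1 for the quotients of `A^N`, for inverse images. -/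
theorem rel_pull (hG : T.GodeauxSerre) (hQ : T.Q1) {m : ℤ} (hm : 1 ≤ m) {N : ℕ} (hmN : 2 * m - 1 < N)
    {z : T.CH.R (A.pow N).A} (hz : T.HomTrivial (A.pow N).A m z) :
    ∑ g : SG N, T.CH.pull (A.sgn N g.1) z = 0 := by
  obtain ⟨⟨W, Y, b, q, p, s, hb1, hbm, hbp, hsp, hdim, hdim', hqq⟩, hY, hYab⟩ :=
    hG (A.pow N).A (SG N) (fun g => A.sgn N g.1) (A.pow N).abelianType sq_one
      (A.sgn_one N) (fun g h => A.sgn_mul N g.1 h.1) (2 * m - 1)
      (fun i x hx hinv => A.vanish_hyp N (2 * m - 1) ⟨m - 1, by ring⟩ hmN i x hx hinv)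
  have h1 : T.CH.push q (T.CH.pull p z) = 0 := by
    refine hQ Y hYab m hm hY _ (T.homTrivial_congr (T.homTrivial_push q (T.homTrivial_pull p hz)) ?_)
    rw [hdim]; ring
  have h2 := hqq (T.CH.pull p z)
  rw [h1, map_zero] at h2
  have h3 : ∀ g, T.CH.pull s (T.CH.pull (b g) (T.CH.pull p z)) = T.CH.pull (A.sgn N g.1) z := by
    intro g
    rw [← T.CH.pull_comp (b g) p, hbp, T.CH.pull_comp, ← T.CH.pull_comp s p, hsp, T.CH.pull_id]
  rw [← Finset.sum_congr rfl fun g _ => h3 g, ← map_sum, ← h2, map_zero]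

/-- The relation given by Q1 for the quotients of `A^N`, for direct images. -/
theorem rel_push (hG : T.GodeauxSerre) (hQ : T.Q1) {m p : ℤ} {N : ℕ} (hp : m + p = N * A.g) (hpN : 2 * p + 1 < N)
    {z : T.CH.R (A.pow N).A} (hz : T.HomTrivial (A.pow N).A m z) :
    ∑ g : SG N, T.CH.push (A.sgn N g.1) z = 0 := by
  by_cases hm : m ≤ 0
  · rw [T.homTrivial_eq_zero hm hz]
    simp
  push Not at hm
  obtain ⟨⟨W, Y, b, q, π, s, hb1, hbm, hbp, hsp, hdim, hdim', hqq⟩, hY, hYab⟩ :=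
    hG (A.pow N).A (SG N) (fun g => A.sgn N g.1) (A.pow N).abelianType sq_one
      (A.sgn_one N) (fun g h => A.sgn_mul N g.1 h.1) (2 * p + 1)
      (fun i x hx hinv => A.vanish_hyp N (2 * p + 1) ⟨p, by ring⟩ hpN i x hx hinv)
  have hdA : T.dim (A.pow N).A = N * A.g := by
    rw [(A.pow N).dim_eq, A.pow_g]
    push_cast
    rfl
  have h1 : T.CH.push q (T.CH.push s z) = 0 := by
    refine hQ Y hYab (T.dim W - p) (by omega) ?_ _
      (T.homTrivial_congr (T.homTrivial_push q (T.homTrivial_push s hz)) ?_)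
    · have := T.duality Y (2 * p + 1) hY
      rw [hdim] at this
      rw [show 2 * (T.dim W - p) - 1 = 2 * T.dim W - (2 * p + 1) by ring]
      exact this
    · rw [hdim, hdA, ← hp]; ring
  have h2 := hqq (T.CH.push s z)
  rw [h1, map_zero] at h2
  have hinvb : ∀ (g : SG N) (z : T.CH.R W), T.CH.pull (b g) z = T.CH.push (b g⁻¹) z := by
    intro g z
    have e1 : b g⁻¹ ≫ b g = 𝟙 W := by rw [← hbm, mul_inv_cancel, hb1]
    have e2 : b g ≫ b g⁻¹ = 𝟙 W := by rw [← hbm, inv_mul_cancel, hb1]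
    exact (T.CH.push_iso (⟨b g⁻¹, b g, e1, e2⟩ : W ≅ W) z).symm
  have h3 : ∀ g, T.CH.push π (T.CH.pull (b g) (T.CH.push s z)) =
      T.CH.push (A.sgn N (g⁻¹ : SG N).1) z := by
    intro g
    rw [hinvb, ← T.CH.push_comp (b g⁻¹) π, hbp, T.CH.push_comp, ← T.CH.push_comp s π, hsp,
      T.CH.push_id]
  have h6 : ∑ g : SG N, T.CH.push (A.sgn N g.1) z = ∑ g : SG N, T.CH.push (A.sgn N (g⁻¹ : SG N).1) z :=
    Fintype.sum_equiv (Equiv.inv (SG N)) _ _ fun g => by simp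
  rw [h6, ← Finset.sum_congr rfl fun g _ => h3 g, ← map_sum, ← h2, map_zero]

theorem tup_sgn (N : ℕ) {X : V} (v : Fin N → (X ⟶ A.A)) (ε : Fin N → ℤˣ) :
    A.tup N v ≫ A.sgn N ε ≫ ∏ i, A.pr N i = ∏ i, (v i) ^ ((ε i : ℤˣ) : ℤ) := by
  rw [comp_prod, comp_prod]
  refine Finset.prod_congr rfl fun i _ => ?_
  rw [sgn_pr, GrpObj.comp_zpow, tup_pr]

theorem signRel_pull (hG : T.GodeauxSerre) (hQ : T.Q1) (k : ℕ) {z : T.CH.R A.A}
    (hz : T.HomTrivial A.A (k + 1 : ℕ) z) :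
    SignRel (2 * k + 3) fun n : ℤ => T.CH.pull ((𝟙 A.A : A.A ⟶ A.A) ^ n) z := by
  intro v
  have h := A.rel_pull hG hQ (m := (k + 1 : ℕ)) (by push_cast; omega) (N := 2 * k + 3)
    (by push_cast; omega) (T.homTrivial_pull (∏ i, A.pr (2 * k + 3) i) hz)
  have h2 := congrArg (T.CH.pull (A.tup (2 * k + 3) fun i => (𝟙 A.A : A.A ⟶ A.A) ^ (v i))) h
  rw [map_zero, map_sum] at h2
  rw [← h2]
  refine Finset.sum_congr rfl fun g _ => ?_
  rw [← T.CH.pull_comp, ← T.CH.pull_comp, Category.assoc, tup_sgn]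
  have e : (𝟙 A.A : A.A ⟶ A.A) ^ (∑ i, ((g.1 i : ℤˣ) : ℤ) • v i) =
      ∏ i, ((𝟙 A.A : A.A ⟶ A.A) ^ (v i)) ^ ((g.1 i : ℤˣ) : ℤ) := by
    have := map_sum (zmultiplesHom _ (Additive.ofMul (𝟙 A.A : A.A ⟶ A.A)))
      (fun i => ((g.1 i : ℤˣ) : ℤ) • v i) Finset.univ
    simp only [zmultiplesHom_apply] at this
    have h3 := congrArg Additive.toMul this
    rw [toMul_zsmul, toMul_ofMul, toMul_sum] at h3
    rw [h3]
    refine Finset.prod_congr rfl fun i _ => ?_
    rw [toMul_zsmul, toMul_ofMul, smul_eq_mul, mul_comm, zpow_mul]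
  beta_reduce
  rw [e]

theorem signRel_push (hG : T.GodeauxSerre) (hQ : T.Q1) {X : V} {m : ℤ} (p : ℕ) (hp : m + p = T.dim X)
    {z : T.CH.R X} (hz : T.HomTrivial X m z) :
    SignRel (2 * p + 3) fun f : Additive (X ⟶ A.A) => T.CH.push f.toMul z := by
  intro v
  have hdA : T.dim (A.pow (2 * p + 3)).A = (2 * p + 3 : ℕ) * A.g := by
    rw [(A.pow _).dim_eq, A.pow_g]
    push_cast
    rfl
  have h := A.rel_push hG hQ (N := 2 * p + 3) (p := p) (m := (2 * p + 3 : ℕ) * A.g - p) (by ring)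
    (by push_cast; omega) (T.homTrivial_congr
      (T.homTrivial_push (A.tup (2 * p + 3) fun i => (v i).toMul) hz) (by rw [hdA]; omega))
  have h2 := congrArg (T.CH.push (∏ i, A.pr (2 * p + 3) i)) h
  rw [map_zero, map_sum] at h2
  rw [← h2]
  refine Finset.sum_congr rfl fun g _ => ?_
  rw [← T.CH.push_comp, ← T.CH.push_comp, tup_sgn]
  beta_reduce
  rw [toMul_sum]
  rfl

end AbVar

theorem SignRel.comp {Λ Λ' W : Type*} [AddCommGroup Λ] [AddCommGroup Λ'] [AddCommGroup W]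
    [Module ℚ W] {N : ℕ} {F : Λ → W} (h : SignRel N F) (φ : Λ' →+ Λ) :
    SignRel N (fun x => F (φ x)) := by
  intro v
  have := h fun i => φ (v i)
  rw [← this]
  refine Finset.sum_congr rfl fun g _ => ?_
  beta_reduce
  rw [map_sum]
  congr 1
  refine Finset.sum_congr rfl fun i _ => ?_
  rw [map_zsmul]

end Pool.Agent.Lib.MP_32dfd1_ag.Cyc
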