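import Mathlib
import Pool.Agent.Lib.MP_32dfd1_ag.Cyc.Rel

set_option autoImplicit false
set_option linter.unusedSectionVars false

/-!
# Q1 for varieties of abelian type determines the Chow groups of abelian varieties
-/

namespace Pool.Agent.Lib.MP_32dfd1_ag.Cyc

open CategoryTheory MonoidalCategory CartesianMonoidalCategory MonObj Polynomial

universe u v w

variable {V : Type u} [Category.{v} V] [CartesianMonoidalCategory V] [BraidedCategory V]
  {T : CycleData.{u, v, w} V} [T.Textbook]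

namespace AbVar

variable (A : AbVar T)

/-- multiplication by `n` on `A` -/
def sc (n : ℤ) : A.A ⟶ A.A := (𝟙 A.A : A.A ⟶ A.A) ^ n

theorem comp_sc {X : V} (f : X ⟶ A.A) (n : ℤ) : f ≫ A.sc n = f ^ n := by
  unfold sc
  rw [GrpObj.comp_zpow, Category.comp_id]

theorem sc_mul (a b : ℤ) : A.sc (a * b) = A.sc a ≫ A.sc b := by
  rw [comp_sc]
  unfold sc
  rw [zpow_mul]

theorem sc_one : A.sc 1 = 𝟙 _ := by
  unfold sc
  rw [zpow_one]

theorem pull_sc_mul (a b : ℤ) (z : T.CH.R A.A) :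
    T.CH.pull (A.sc (a * b)) z = T.CH.pull (A.sc a) (T.CH.pull (A.sc b) z) := by
  rw [A.sc_mul, T.CH.pull_comp]

theorem push_sc_mul (a b : ℤ) (z : T.CH.R A.A) :
    T.CH.push (A.sc (a * b)) z = T.CH.push (A.sc a) (T.CH.push (A.sc b) z) := by
  rw [mul_comm, A.sc_mul, T.CH.push_comp]

theorem push_pull (n : ℤ) (z : T.CH.R A.A) (hn : n ≠ 0) :
    T.CH.push (A.sc n) (T.CH.pull (A.sc n) z) = ((n : ℚ) ^ (2 * A.g)) • z := by
  have h := T.CH.proj_left (A.sc n) 1 z
  rw [_root_.mul_one] at h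
  have h2 : T.CH.push (A.sc n) (1 : T.CH.R A.A) = ((n : ℚ) ^ (2 * A.g)) • (1 : T.CH.R A.A) :=
    A.degree n hn
  rw [h, h2, mul_smul_comm, _root_.mul_one]

/-- Q1 implies that `[n]^*` is multiplication by `n ^ (2m - 1)`. -/
theorem pull_eq (hG : T.GodeauxSerre) (hQ : T.Q1) {m : ℤ} (hm : 1 ≤ m) {z : T.CH.R A.A}
    (hz : T.HomTrivial A.A m z) (n : ℤ) :
    T.CH.pull (A.sc n) z = ((n : ℚ) ^ (2 * m - 1).toNat) • z := by
  obtain ⟨k, rfl⟩ : ∃ k : ℕ, m = (k + 1 : ℕ) := ⟨(m - 1).toNat, by omega⟩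
  have ha : (2 * ((k + 1 : ℕ) : ℤ) - 1).toNat = 2 * k + 1 := by omega
  rw [ha]
  by_cases hg : (A.g : ℤ) < (k + 1 : ℕ)
  · have h1 := T.homTrivial_eq_zero' (by rw [A.dim_eq]; exact hg) hz
    rw [h1]; simp
  obtain ⟨p, hp⟩ : ∃ p : ℕ, (k + 1) + p = A.g := ⟨A.g - (k + 1), by omega⟩
  -- the set of homologically trivial classes
  let S : Set (T.CH.R A.A) := {z | T.HomTrivial A.A (k + 1 : ℕ) z}
  let N : Module.End ℚ (T.CH.R A.A) := (T.CH.pull (A.sc 2)).toLinearMap
  let M : Module.End ℚ (T.CH.R A.A) := T.CH.push (A.sc 2)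
  have hNp : ∀ (l : ℕ) (z : T.CH.R A.A), (N ^ l) z = T.CH.pull (A.sc (2 ^ l)) z := by
    intro l
    induction l with
    | zero => intro z; rw [pow_zero, pow_zero, A.sc_one, T.CH.pull_id]; rfl
    | succ l ih =>
      intro z
      rw [pow_succ, Module.End.mul_apply, ih, pow_succ, A.pull_sc_mul]
      rfl
  have hMp : ∀ (l : ℕ) (z : T.CH.R A.A), (M ^ l) z = T.CH.push (A.sc (2 ^ l)) z := by
    intro l
    induction l with
    | zero => intro z; rw [pow_zero, pow_zero, A.sc_one, T.CH.push_id]; rfl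
    | succ l ih =>
      intro z
      rw [pow_succ, Module.End.mul_apply, ih, pow_succ, A.push_sc_mul]
  have h2 : ∀ z ∈ S, N z = ((2 : ℚ) ^ (2 * k + 1)) • z := by
    refine eigen N M S ?_ ?_ ?_ A.g (2 * k + 1) (2 * p + 1) (by omega) ?_ ?_ ?_
    · rintro z ⟨h1, h2⟩
      exact T.homTrivial_pull _ ⟨h1, h2⟩
    · rintro z ⟨h1, h2⟩ w ⟨h3, h4⟩
      exact ⟨Submodule.sub_mem _ h1 h3, by rw [map_sub, h2, h4, sub_zero]⟩
    · rintro a z ⟨h1, h2⟩
      exact ⟨Submodule.smul_mem _ _ h1, by rw [map_smul, h2, smul_zero]⟩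
    · intro z
      have := A.push_pull 2 z (by norm_num)
      push_cast at this
      exact this
    · intro z hz
      have hrel := A.signRel_pull hG hQ k hz
      obtain ⟨c, hc⟩ := hrel.expand
      refine aeval_qp (2 * k + 1 + 1) N z (fun n : ℤ => T.CH.pull (A.sc n) z) c hc fun l => ?_
      rw [hNp]
      congr 3
      push_cast
      ring
    · intro z hz
      have hrel := A.signRel_push hG hQ p (by rw [A.dim_eq, ← hp]; push_cast; ring) hz
      have hrel' : SignRel (2 * p + 3) fun n : ℤ => T.CH.push (A.sc n) z := by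
        have h := hrel.comp (zmultiplesHom _ (Additive.ofMul (𝟙 A.A : A.A ⟶ A.A)))
        exact h
      obtain ⟨c, hc⟩ := hrel'.expand
      refine aeval_qp (2 * p + 1 + 1) M z (fun n : ℤ => T.CH.push (A.sc n) z) c hc fun l => ?_
      rw [hMp]
      congr 3
      push_cast
      ring
  have hrel := A.signRel_pull hG hQ k hz
  obtain ⟨c, hc⟩ := hrel.expand
  have hNz : ∀ l : ℕ, (N ^ l) z = ((2 : ℚ) ^ ((2 * k + 1) * l)) • z := by
    intro l
    induction l with
    | zero => simp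
    | succ l ih =>
      rw [pow_succ', Module.End.mul_apply, ih, map_smul, h2 z hz, smul_smul, ← pow_add]
      congr 2
  have hev := even_values (2 * k + 2) (2 * k + 1) z (fun n : ℤ => T.CH.pull (A.sc n) z) c hc
    (fun l => by
      rw [← hNz, hNp]
      congr 3
      push_cast
      ring)
  have hnat : ∀ l : ℕ, T.CH.pull (A.sc l) z = ((l : ℚ) ^ (2 * k + 1)) • z := by
    intro l
    have h3 := hev l
    beta_reduce at h3
    rw [mul_comm, A.pull_sc_mul] at h3
    have h4 : T.CH.pull (A.sc 2) z = ((2 : ℚ) ^ (2 * k + 1)) • z := h2 z hz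
    rw [h4, map_smul, mul_pow, mul_smul] at h3
    exact smul_right_injective _ (by positivity : ((2 : ℚ) ^ (2 * k + 1)) ≠ 0) h3
  rcases Int.natAbs_eq n with h | h
  · rw [h]
    exact_mod_cast hnat n.natAbs
  · rw [h]
    have h5 := SignRel.odd (k := 2 * k + 1) hrel (n.natAbs : ℤ)
    beta_reduce at h5
    change T.CH.pull (A.sc (-(n.natAbs : ℤ))) z = - T.CH.pull (A.sc (n.natAbs : ℤ)) z at h5
    rw [h5, hnat, Int.cast_neg, Int.cast_natCast, Odd.neg_pow ⟨k, rfl⟩, neg_smul]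

/-- Q1 implies that homologically trivial zero-cycles satisfy `(u * v)_* = u_* + v_*`. -/
theorem zero_cycles (hG : T.GodeauxSerre) (hQ : T.Q1) {X : V} {z : T.CH.R X} (hz : T.HomTrivial X (T.dim X) z)
    (u v : X ⟶ A.A) : T.CH.push (u * v) z = T.CH.push u z + T.CH.push v z := by
  have hX : ∀ w : X ⟶ A.A, T.HomTrivial A.A A.g (T.CH.push w z) := by
    intro w
    refine T.homTrivial_congr (T.homTrivial_push w hz) ?_
    rw [A.dim_eq]
    ring
  by_cases hg : A.g = 0
  · have h0 : ∀ w : X ⟶ A.A, T.CH.push w z = 0 := fun w =>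
      T.homTrivial_eq_zero (by rw [hg]; norm_num) (hX w)
    rw [h0, h0, h0, add_zero]
  set F : Additive (X ⟶ A.A) → T.CH.R A.A := fun f => T.CH.push f.toMul z with hF
  have hrel : SignRel (2 * 0 + 3) F := A.signRel_push hG hQ 0 (by push_cast; ring) hz
  have hodd : ∀ w, F (-w) = - F w := fun w => SignRel.odd (k := 1) hrel w
  have h0 : F 0 = 0 := by
    have h1 := hodd 0
    rw [neg_zero] at h1
    have h2 : (2 : ℚ) • F 0 = 0 := by
      rw [two_smul]
      nth_rewrite 1 [h1]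
      simp
    exact (smul_eq_zero.1 h2).resolve_left (by norm_num)
  have hF2 : ∀ w, F (w + w) = (2 : ℚ) • F w := by
    intro w
    have h1 : F (w + w) = T.CH.push (A.sc 2) (F w) := by
      simp only [hF]
      rw [← T.CH.push_comp, comp_sc]
      congr 2
      rw [toMul_add]
      exact (zpow_two _).symm
    have h2 := A.pull_eq hG hQ (m := A.g) (by omega) (hX w.toMul) 2
    have h3 := A.push_pull 2 (F w) (by norm_num)
    have h2' : T.CH.pull (A.sc 2) (F w) = (((2 : ℤ) : ℚ) ^ (2 * (A.g : ℤ) - 1).toNat) • F w := h2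
    rw [h2', map_smul] at h3
    obtain ⟨k, hk⟩ : ∃ k : ℕ, A.g = k + 1 := ⟨A.g - 1, by omega⟩
    rw [h1]
    have e1 : (2 * (A.g : ℤ) - 1).toNat = 2 * k + 1 := by omega
    have e2 : ((2 : ℤ) : ℚ) ^ (2 * A.g) = 2 ^ (2 * k + 1) * 2 := by
      rw [show 2 * A.g = (2 * k + 1) + 1 by omega, pow_succ]
      norm_num
    rw [e1, e2, mul_smul, Int.cast_ofNat] at h3
    exact smul_right_injective _ (by positivity : ((2 : ℚ) ^ (2 * k + 1)) ≠ 0) h3
  have hd := SignRel.diff (k := 0) hrel ![Additive.ofMul u, Additive.ofMul v]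
    (Additive.ofMul u + Additive.ofMul v)
  change ∑ ε : Fin 2 → ℤˣ, ((∏ i, ε i : ℤˣ) : ℤ) •
      F ((Additive.ofMul u + Additive.ofMul v) + ∑ i, ((ε i : ℤˣ) : ℤ) •
        (![Additive.ofMul u, Additive.ofMul v] : Fin 2 → Additive (X ⟶ A.A)) i) = 0 at hd
  rw [← (finTwoArrowEquiv ℤˣ).symm.sum_comp, Fintype.sum_prod_type] at hd
  have huniv : (Finset.univ : Finset ℤˣ) = {1, -1} := rfl
  have hne : (1 : ℤˣ) ≠ -1 := by decide
  rw [huniv, Finset.sum_pair hne, Finset.sum_pair hne, Finset.sum_pair hne] at hd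
  simp only [finTwoArrowEquiv_symm_apply, Fin.prod_univ_two, Fin.sum_univ_two,
    Matrix.cons_val_zero, Matrix.cons_val_one, Units.val_neg, Units.val_one,
    _root_.mul_one, one_smul, neg_smul, mul_neg, neg_neg] at hd
  have key : ∀ a b : Additive (X ⟶ A.A), a + b + (a + b) = (a + b) + (a + b) ∧
      a + b + (a + -b) = a + a ∧ a + b + (-a + b) = b + b ∧ a + b + (-a + -b) = 0 := by
    intro a b
    refine ⟨rfl, by abel, by abel, by abel⟩
  obtain ⟨-, e2, e3, e4⟩ := key (Additive.ofMul u) (Additive.ofMul v)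
  rw [e2, e3, e4, h0, hF2, hF2, hF2, add_zero] at hd
  have h5 : (2 : ℚ) • F (Additive.ofMul u + Additive.ofMul v) =
      (2 : ℚ) • (F (Additive.ofMul u) + F (Additive.ofMul v)) := by
    rw [smul_add, ← sub_eq_zero, ← hd]
    abel
  exact smul_right_injective _ (by norm_num : (2 : ℚ) ≠ 0) h5

end AbVar

theorem pureWeight_of_Q1 (hG : T.GodeauxSerre) (hQ : T.Q1) : T.PureWeight :=
  fun A _ hm _ hz n => A.pull_eq hG hQ hm hz n

theorem albaneseTrivial_of_Q1 (hG : T.GodeauxSerre) (hQ : T.Q1) : T.AlbaneseTrivial := by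
  intro A z hz
  rw [MonObj.mul_eq_mul]
  refine A.zero_cycles hG hQ (T.homTrivial_congr hz ?_) _ _
  rw [T.dim_tensor, A.dim_eq]
  ring

end Pool.Agent.Lib.MP_32dfd1_ag.Cyc
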