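import Mathlib
import Pool.Agent.Lib.MP_32dfd1_ag.Cyc.Pure

set_option autoImplicit false
set_option linter.unusedSectionVars false

/-!
# From abelian varieties to all varieties of abelian type
-/

namespace Pool.Agent.Lib.MP_32dfd1_ag.Cyc

open CategoryTheory MonoidalCategory CartesianMonoidalCategory MonObj Polynomial

universe u v w

variable {V : Type u} [Category.{v} V] [CartesianMonoidalCategory V]

namespace RingData

variable (R : RingData.{u, v, w} V) [R.Functorial] [R.Direct] [R.Formulas]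

/-- inverse images under isomorphisms and direct images -/
theorem pull_push_iso {X X' Y Y' : V} (a : X ≅ X') (b : Y ≅ Y') (p : X ⟶ Y) (p' : X' ⟶ Y')
    (h : a.hom ≫ p' = p ≫ b.hom) (u : R.R X') :
    R.pull b.hom (R.push p' u) = R.push p (R.pull a.hom u) := by
  have h1 : ∀ {X Y : V} (f : X ≅ Y) (x : R.R Y), R.pull f.hom x = R.push f.inv x := by
    intro X Y f x
    exact (R.push_iso f.symm x).symm
  rw [h1, h1, ← R.push_comp, ← R.push_comp]
  congr 2
  rw [Iso.eq_inv_comp, ← Category.assoc, h, Category.assoc, Iso.hom_inv_id, Category.comp_id]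

theorem comp_zero {X Y Z : V} (c : R.R (X ⊗ Y)) : R.comp c (0 : R.R (Y ⊗ Z)) = 0 := by
  unfold comp
  rw [map_zero, mul_zero, map_zero]

theorem zero_comp {X Y Z : V} (d : R.R (Y ⊗ Z)) : R.comp (0 : R.R (X ⊗ Y)) d = 0 := by
  unfold comp
  rw [map_zero, zero_mul, map_zero]

theorem act_push_diag {X : V} (z z' : R.R X) :
    R.act (R.push (lift (𝟙 X) (𝟙 X)) z') z = z * z' := by
  unfold act
  rw [← R.proj_left, ← R.pull_comp, ← R.push_comp, lift_fst, lift_snd, R.pull_id, R.push_id]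

end RingData

variable [BraidedCategory V] {T : CycleData.{u, v, w} V} [T.Textbook]

namespace AbVar

theorem pull_neg (hP : T.PureWeight) (A : AbVar T) {m : ℤ} {z : T.CH.R A.A}
    (hz : T.HomTrivial A.A m z) : T.CH.pull (A.sc (-1)) z = -z := by
  by_cases hm : 1 ≤ m
  · have h := hP A m hm z hz (-1)
    have h2 : ((-1 : ℤ) : ℚ) ^ (2 * m - 1).toNat = -1 := by
      have : Odd (2 * m - 1).toNat := ⟨(m - 1).toNat, by omega⟩
      rw [Int.cast_neg, Int.cast_one, this.neg_one_pow]
    rw [h2, neg_one_smul] at h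
    exact h
  · rw [T.homTrivial_eq_zero (by omega) hz]
    simp

theorem sc_neg_sq (A : AbVar T) : A.sc (-1) ≫ A.sc (-1) = 𝟙 _ := by
  rw [← A.sc_mul, show (-1 : ℤ) * -1 = 1 by norm_num, A.sc_one]

/-- homologically trivial correspondences between abelian varieties kill homologically
trivial cycles -/
theorem parity (hP : T.PureWeight) (A B : AbVar T) {k m : ℤ}
    {c : T.CH.R (A.A ⊗ B.A)} {z : T.CH.R A.A} (hc : T.HomTrivial (A.A ⊗ B.A) k c)
    (hz : T.HomTrivial A.A m z) : T.CH.act c z = 0 := by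
  have h1 : (A.prod B).sc (-1) = A.sc (-1) ⊗ₘ B.sc (-1) := id_tensor_zpow A.A B.A (-1)
  have h2 : T.CH.pull (A.sc (-1) ⊗ₘ B.sc (-1)) c = -c := by
    rw [← h1]
    exact pull_neg hP (A.prod B) hc
  let eA : A.A ≅ A.A := ⟨A.sc (-1), A.sc (-1), A.sc_neg_sq, A.sc_neg_sq⟩
  let eB : B.A ≅ B.A := ⟨B.sc (-1), B.sc (-1), B.sc_neg_sq, B.sc_neg_sq⟩
  let eAB : A.A ⊗ B.A ≅ A.A ⊗ B.A :=
    ⟨A.sc (-1) ⊗ₘ B.sc (-1), A.sc (-1) ⊗ₘ B.sc (-1),
      by rw [tensorHom_comp_tensorHom, A.sc_neg_sq, B.sc_neg_sq]; simp,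
      by rw [tensorHom_comp_tensorHom, A.sc_neg_sq, B.sc_neg_sq]; simp⟩
  have h3 : T.CH.pull (B.sc (-1)) (T.CH.act c z) = T.CH.act c z := by
    unfold RingData.act
    have h4 := T.CH.pull_push_iso eAB eB (snd A.A B.A) (snd A.A B.A)
      (by simp [eAB, eB]) (T.CH.pull (fst A.A B.A) z * c)
    change T.CH.pull (B.sc (-1)) (T.CH.push (snd A.A B.A) (T.CH.pull (fst A.A B.A) z * c)) =
      T.CH.push (snd A.A B.A) (T.CH.pull (A.sc (-1) ⊗ₘ B.sc (-1)) (T.CH.pull (fst A.A B.A) z * c))
      at h4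
    rw [h4, map_mul (T.CH.pull _), h2, ← T.CH.pull_comp, tensorHom_fst, T.CH.pull_comp,
      pull_neg hP A hz, map_neg, neg_mul_neg]
  have h4 := pull_neg hP B (T.homTrivial_act hc.1 hz)
  rw [h3] at h4
  have h5 : (2 : ℚ) • T.CH.act c z = 0 := by
    rw [two_smul]
    nth_rewrite 1 [h4]
    simp
  exact (smul_eq_zero.1 h5).resolve_left (by norm_num)

/-- polynomials in `[2]^*` as correspondences -/
theorem polynomial_act (A : AbVar T) (P : ℚ[X]) :
    ∃ c ∈ T.CH.gr (A.A ⊗ A.A) A.g,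
      (∀ (z : T.CH.R A.A) (j : ℕ), (∀ n : ℤ, T.CH.pull (A.sc n) z = ((n : ℚ) ^ j) • z) →
        T.CH.act c z = (P.eval ((2 : ℚ) ^ j)) • z) ∧
      (∀ (z : T.H.R A.A) (j : ℕ), (∀ n : ℤ, T.H.pull (A.sc n) z = ((n : ℚ) ^ j) • z) →
        T.H.act (T.cl _ c) z = (P.eval ((2 : ℚ) ^ j)) • z) := by
  refine ⟨∑ k ∈ Finset.range (P.natDegree + 1), P.coeff k • T.CH.gt (A.sc (2 ^ k)), ?_, ?_, ?_⟩
  · refine Submodule.sum_mem _ fun k _ => Submodule.smul_mem _ _ ?_
    exact T.gr_congr (T.gt_mem (A.sc (2 ^ k))) A.dim_eq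
  · intro z j h
    rw [RingData.sum_act, eval_eq_sum_range, Finset.sum_smul]
    refine Finset.sum_congr rfl fun k _ => ?_
    rw [RingData.smul_act, RingData.act_gt, h, smul_smul]
    congr 2
    push_cast
    rw [← pow_mul, ← pow_mul, mul_comm]
  · intro z j h
    rw [map_sum, RingData.sum_act, eval_eq_sum_range, Finset.sum_smul]
    refine Finset.sum_congr rfl fun k _ => ?_
    rw [map_smul, RingData.smul_act, T.cl_gt, RingData.act_gt, h, smul_smul]
    congr 2
    push_cast
    rw [← pow_mul, ← pow_mul, mul_comm]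

/-- the projector which sees homologically trivial cycles of codimension `m` -/
theorem projector (hP : T.PureWeight) (A : AbVar T) (m : ℤ) :
    ∃ c ∈ T.CH.gr (A.A ⊗ A.A) A.g,
      (∀ z, T.HomTrivial A.A m z → T.CH.act c z = z) ∧
      (∀ l : ℤ, l ≠ 2 * m - 1 → ∀ x ∈ T.H.gr A.A l, T.H.act (T.cl _ c) x = 0) ∧
      (∀ x ∈ T.H.gr A.A (2 * m - 1), T.H.act (T.cl _ c) x = x) := by
  by_cases hm : 1 ≤ m ∧ m ≤ A.g
  · obtain ⟨hm, hmg⟩ := hm
    obtain ⟨j, hj⟩ : ∃ j : ℕ, (j : ℤ) = 2 * m - 1 := ⟨(2 * m - 1).toNat, by omega⟩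
    let P : ℚ[X] := Lagrange.interpolate (Finset.range (2 * A.g + 1)) (fun l : ℕ => (2 : ℚ) ^ l)
      (fun l => if l = j then 1 else 0)
    have hinj : Set.InjOn (fun l : ℕ => (2 : ℚ) ^ l) (Finset.range (2 * A.g + 1)) :=
      (pow_right_injective₀ (by norm_num) (by norm_num)).injOn
    have hPe : ∀ l : ℕ, l ≤ 2 * A.g → P.eval ((2 : ℚ) ^ l) = if l = j then 1 else 0 := by
      intro l hl
      exact Lagrange.eval_interpolate_at_node _ hinj (Finset.mem_range.2 (by omega))
    obtain ⟨c, hc, h1, h2⟩ := polynomial_act A P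
    refine ⟨c, hc, fun z hz => ?_, fun l hl x hx => ?_, fun x hx => ?_⟩
    · rw [h1 z j fun n => ?_, hPe j (by omega), if_pos rfl, one_smul]
      have h3 := hP A m hm z hz n
      rw [show (2 * m - 1).toNat = j by omega] at h3
      exact h3
    · by_cases hl0 : l < 0 ∨ 2 * T.dim A.A < l
      · rw [T.H_bot A.A l hl0, Submodule.mem_bot] at hx
        rw [hx, RingData.act_zero]
      · push Not at hl0
        rw [A.dim_eq] at hl0
        rw [h2 x l.toNat fun n => A.coh_int n hl0.1 hx, hPe l.toNat (by omega),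
          if_neg (by omega), zero_smul]
    · have hx' : x ∈ T.H.gr A.A (j : ℤ) := by rw [hj]; exact hx
      rw [h2 x j fun n => A.coh n j x hx', hPe j (by omega), if_pos rfl, one_smul]
  · refine ⟨0, Submodule.zero_mem _, fun z hz => ?_, fun l hl x hx => ?_, fun x hx => ?_⟩
    · rw [RingData.zero_act]
      by_cases h : m ≤ 0
      · exact (T.homTrivial_eq_zero h hz).symm
      · exact (T.homTrivial_eq_zero' (by rw [A.dim_eq]; omega) hz).symm
    · rw [map_zero, RingData.zero_act]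
    · rw [map_zero, RingData.zero_act]
      rw [T.H_bot A.A (2 * m - 1) (by rw [A.dim_eq]; omega), Submodule.mem_bot] at hx
      exact hx.symm

end AbVar

theorem oneStep_of_pureWeight (hP : T.PureWeight) : T.OneStep := by
  classical
  intro X Y hX hY m r c hm hc hkill z hz
  obtain ⟨I, _, A, n, a, b, ha, hb, hab⟩ := hX
  obtain ⟨J, _, A', n', a', b', ha', hb', hab'⟩ := hY
  have idX : ∀ x : T.CH.R X, ∑ i, T.CH.act (b i) (T.CH.act (a i) x) = x := by
    intro x
    have h := T.CH.act_diag x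
    rw [← hab, RingData.sum_act] at h
    rw [← Finset.sum_congr rfl fun i _ => T.CH.act_comp (a i) (b i) x]
    exact h
  have idHX : ∀ x : T.H.R X, ∑ i, T.H.act (T.cl _ (b i)) (T.H.act (T.cl _ (a i)) x) = x := by
    intro x
    have h := T.H.act_diag x
    rw [← T.cl_diag, ← hab, map_sum, RingData.sum_act] at h
    rw [← h]
    refine Finset.sum_congr rfl fun i _ => ?_
    rw [h, T.cl_comp, RingData.act_comp]
  have idY : ∀ y : T.CH.R Y, ∑ j, T.CH.act (b' j) (T.CH.act (a' j) y) = y := by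
    intro y
    have h := T.CH.act_diag y
    rw [← hab', RingData.sum_act] at h
    rw [← Finset.sum_congr rfl fun i _ => T.CH.act_comp (a' i) (b' i) y]
    exact h
  choose p hp hp1 hp2 hp3 using fun i => AbVar.projector hP (A i) (m + n i)
  -- the correspondence which is the identity on `H^(2m-1)(X)` and kills the rest
  let t : T.CH.R (X ⊗ X) := ∑ i, T.CH.comp (T.CH.comp (a i) (p i)) (b i)
  have ht : ∀ z, T.HomTrivial X m z → T.CH.act t z = z := by
    intro z hz
    simp only [t]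
    rw [RingData.sum_act]
    refine Eq.trans (Finset.sum_congr rfl fun i _ => ?_) (idX z)
    rw [RingData.act_comp, RingData.act_comp, hp1 i]
    exact T.homTrivial_congr (T.homTrivial_act (ha i) hz) (by ring)
  have htH : ∀ (l : ℤ), ∀ x ∈ T.H.gr X l, T.H.act (T.cl _ t) x =
      if l = 2 * m - 1 then x else 0 := by
    intro l x hx
    have h1 : ∀ i, T.H.act (T.cl _ (a i)) x ∈ T.H.gr (A i).A (l + 2 * n i) := by
      intro i
      exact T.grH_congr (T.actH_mem (T.cl_mem _ _ _ (ha i)) hx) (by ring)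
    have h2 : T.H.act (T.cl _ t) x = ∑ i, T.H.act (T.cl _ (b i))
        (T.H.act (T.cl _ (p i)) (T.H.act (T.cl _ (a i)) x)) := by
      simp only [t]
      rw [map_sum, RingData.sum_act]
      refine Finset.sum_congr rfl fun i _ => ?_
      rw [T.cl_comp, T.cl_comp, RingData.act_comp, RingData.act_comp]
    rw [h2]
    split_ifs with hl
    · refine Eq.trans (Finset.sum_congr rfl fun i _ => ?_) (idHX x)
      rw [hp3 i]
      exact T.grH_congr (h1 i) (by rw [hl]; ring)
    · refine Finset.sum_eq_zero fun i _ => ?_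
      rw [hp2 i (l + 2 * n i) (fun h => hl (by linarith)) _ (h1 i), RingData.act_zero]
  have htm : t ∈ T.CH.gr (X ⊗ X) (T.dim X) := by
    refine Submodule.sum_mem _ fun i _ => ?_
    refine T.gr_congr (T.comp_mem (T.comp_mem (ha i) (hp i)) (hb i)) ?_
    rw [(A i).dim_eq]
    ring
  -- the composition with `c` is homologically trivial
  have hL : T.HomTrivial (X ⊗ Y) (T.dim X + r) (T.CH.comp t c) := by
    refine ⟨T.gr_congr (T.comp_mem htm hc) (by ring), ?_⟩
    refine T.faithful X Y _ fun x => ?_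
    have hx : x ∈ ⨆ j, T.H.gr X j := by rw [T.H_top]; trivial
    induction hx using Submodule.iSup_induction' with
    | zero => exact RingData.act_zero _ _
    | add x y _ _ h1 h2 => rw [RingData.act_add, h1, h2, add_zero]
    | mem l x hx =>
      rw [T.cl_comp, RingData.act_comp, htH l x hx]
      split_ifs with hl
      · exact hkill x (by rw [← hl]; exact hx)
      · exact RingData.act_zero _ _
  -- conclusion
  have h1 : T.CH.act c z = T.CH.act (T.CH.comp t c) z := by
    rw [RingData.act_comp, ht z hz]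
  rw [h1, ← idX z, RingData.act_sum]
  refine Finset.sum_eq_zero fun i _ => ?_
  rw [← RingData.act_comp, ← idY (T.CH.act (T.CH.comp (b i) (T.CH.comp t c)) _)]
  refine Finset.sum_eq_zero fun j _ => ?_
  have h2 : T.CH.act (T.CH.comp (T.CH.comp (b i) (T.CH.comp t c)) (a' j)) (T.CH.act (a i) z) = 0 := by
    refine AbVar.parity hP (A i) (A' j) (k := _) (m := _) ⟨T.comp_mem (T.comp_mem (hb i) hL.1)
      (ha' j), ?_⟩ (T.homTrivial_act (ha i) hz)
    rw [T.cl_comp, T.cl_comp, hL.2, RingData.comp_zero, RingData.zero_comp]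
  rw [RingData.act_comp] at h2
  rw [h2, RingData.act_zero]

theorem q1_of_oneStep (h : T.OneStep) : T.Q1 := by
  intro X hX m hm hH z hz
  have h1 := h X X hX hX m 0 (T.CH.diag X) hm (T.gr_congr (T.diag_mem X) (by ring)) ?_ z hz
  · rwa [RingData.act_diag] at h1
  · intro x hx
    rw [T.cl_diag, RingData.act_diag]
    rwa [hH, Submodule.mem_bot] at hx

theorem productsVanish_of_oneStep (h : T.OneStep) : T.ProductsVanish := by
  intro X hX a b z z' hz hz'
  by_cases ha : 1 ≤ a
  · rw [← RingData.act_push_diag]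
    refine h X X hX hX a b _ ha ?_ ?_ z hz
    · refine T.gr_congr (T.CH_push_mem _ hz'.1) ?_
      rw [T.dim_tensor]
      ring
    · intro x _
      rw [T.cl_push, hz'.2, map_zero, RingData.zero_act]
  · rw [T.homTrivial_eq_zero (by omega) hz, zero_mul]

end Pool.Agent.Lib.MP_32dfd1_ag.Cyc
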